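import Pool.Agent.R542.SR.Sys

/-!
# From colourings to star colourings
-/

set_option autoImplicit false

namespace Pool.Agent.NPC.R542.SR

variable {p : ℕ} {E : List (ℕ × ℕ)}

/-- number to element -/
def io (p a : ℕ) : Fin (p + 2) := Fin.ofNat (p + 2) a

theorem io_val {a : ℕ} (h : a < p + 2) : ((io p a : Fin (p + 2)) : ℕ) = a := by
  unfold io
  rw [Fin.val_ofNat, Nat.mod_eq_of_lt h]

theorem io_inj {a b : ℕ} (ha : a < p + 2) (hb : b < p + 2) (h : io p a = io p b) : a = b := by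
  rw [← io_val ha, ← io_val hb, h]

theorem io_ne {a b : ℕ} (ha : a < p + 2) (hb : b < p + 2) (h : a ≠ b) : io p a ≠ io p b :=
  fun e => h (io_inj ha hb e)

section
variable (c : ℕ → Fin p)

/-- the label of the colour of a vertex -/
def cc (v : ℕ) : Fin (p + 2) := io p (c v + 2)

/-- copies of kind `0` -/
def g0 (v : ℕ) : Equiv.Perm (Fin (p + 2)) := Equiv.swap (io p 2) (cc c v)

/-- the permutation of a copy -/
noncomputable def gg (E : List (ℕ × ℕ)) (α : ℕ × ℕ × ℕ) : Equiv.Perm (Fin (p + 2)) :=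
  if α.2.2 = 0 then g0 c α.1
  else if α.2.2 = 1 then (Equiv.swap (io p 0) (io p 1)).trans (g0 c α.1)
  else if α.1 = eU E α.2.1 then
    (g0 c α.1).trans (Equiv.swap (g0 c α.1 (io p 3)) (cc c (eW E α.2.1)))
  else 1

variable {c}

theorem cc_ne {v w : ℕ} (h : c v ≠ c w) : cc c v ≠ cc c w := by
  have h1 := (c v).2
  have h2 := (c w).2
  refine io_ne (by omega) (by omega) ?_
  intro e
  exact h (Fin.ext (by omega))

theorem cc_ne0 (v a : ℕ) (ha : a < 2) : io p a ≠ cc c v := by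
  have h1 := (c v).2
  exact io_ne (by omega) (by omega) (by omega)

theorem g0_0 (hp : 3 ≤ p) (v a : ℕ) (ha : a < 2) : g0 c v (io p a) = io p a := by
  unfold g0
  exact Equiv.swap_apply_of_ne_of_ne (io_ne (by omega) (by omega) (by omega)) (cc_ne0 v a ha)

theorem g0_2 (v : ℕ) : g0 c v (io p 2) = cc c v := Equiv.swap_apply_left _ _

theorem gg0 (v t a : ℕ) : gg c E (v, t, 0) (io p a) = g0 c v (io p a) := by
  unfold gg
  rw [if_pos rfl]

theorem gg1 (v t : ℕ) (x : Fin (p + 2)) : gg c E (v, t, 1) x =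
    g0 c v (Equiv.swap (io p 0) (io p 1) x) := by
  unfold gg
  rw [if_neg (by simp), if_pos rfl]
  rfl

theorem gg1_0 (v t : ℕ) : gg c E (v, t, 1) (io p 0) = g0 c v (io p 1) := by
  rw [gg1, Equiv.swap_apply_left]

theorem gg1_1 (v t : ℕ) : gg c E (v, t, 1) (io p 1) = g0 c v (io p 0) := by
  rw [gg1, Equiv.swap_apply_right]

theorem gg1_2 (hp : 3 ≤ p) (v t : ℕ) : gg c E (v, t, 1) (io p 2) = g0 c v (io p 2) := by
  rw [gg1, Equiv.swap_apply_of_ne_of_ne (io_ne (by omega) (by omega) (by omega))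
    (io_ne (by omega) (by omega) (by omega))]

theorem gg2 (t : ℕ) (x : Fin (p + 2)) : gg c E (eU E t, t, 2) x =
    Equiv.swap (g0 c (eU E t) (io p 3)) (cc c (eW E t)) (g0 c (eU E t) x) := by
  unfold gg
  rw [if_neg (by simp), if_neg (by simp), if_pos rfl]
  rfl

theorem gg2_0 (hp : 3 ≤ p) (t a : ℕ) (ha : a < 2) :
    gg c E (eU E t, t, 2) (io p a) = g0 c (eU E t) (io p a) := by
  rw [gg2, Equiv.swap_apply_of_ne_of_ne]
  · intro e
    have := (g0 c (eU E t)).injective e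
    exact io_ne (by omega) (by omega) (by omega) this
  · rw [g0_0 hp _ _ ha]
    exact cc_ne0 _ _ ha

theorem gg2_2 (hp : 3 ≤ p) (t : ℕ) (hne : c (eU E t) ≠ c (eW E t)) :
    gg c E (eU E t, t, 2) (io p 2) = g0 c (eU E t) (io p 2) := by
  rw [gg2, Equiv.swap_apply_of_ne_of_ne]
  · intro e
    have := (g0 c (eU E t)).injective e
    exact io_ne (by omega) (by omega) (by omega) this
  · rw [g0_2]
    exact cc_ne hne

theorem gg2_3 (t : ℕ) : gg c E (eU E t, t, 2) (io p 3) = cc c (eW E t) := by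
  rw [gg2, Equiv.swap_apply_left]

/-- **Both sides of the cut flags have the same labels.** -/
theorem key (hp : 3 ≤ p) (hc : ∀ t, t < E.length → c (eU E t) ≠ c (eW E t)) {f : FlagN}
    (hf : VF (p + 2) E f) :
    gg c E (sg E f).1 (io p (sg E f).2.1) = gg c E f.1 (io p f.2.1) ∧
    gg c E (sg E f).1 (io p (sg E f).2.2.1) = gg c E f.1 (io p f.2.2.1) ∧
    gg c E (sg E f).1 (io p (sg E f).2.2.2) = gg c E f.1 (io p f.2.2.2) := by
  by_cases hcut : Cut E f
  · obtain ⟨⟨v, t, s⟩, τ⟩ := f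
    have ht : t < E.length := hf.2.1
    have hne := hc t ht
    unfold Cut at hcut
    simp only at hcut
    rcases hcut with ⟨rfl, rfl⟩ | ⟨rfl, rfl⟩ | ⟨rfl, rfl⟩ | ⟨rfl, rfl⟩ | ⟨rfl, rfl, rfl⟩ |
      ⟨rfl, rfl, rfl⟩
    · by_cases d1 : v = eU E t
      · subst d1
        have e : sg E ((eU E t, t, 0), (0, 1, 2)) = ((eU E t, t, 2), (0, 1, 2)) := by simp [sg]
        rw [e]
        refine ⟨?_, ?_, ?_⟩
        · rw [gg2_0 hp t 0 (by omega), gg0]
        · rw [gg2_0 hp t 1 (by omega), gg0]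
        · rw [gg2_2 hp t hne, gg0]
      · by_cases d2 : v = eW E t
        · subst d2
          have e : sg E ((eW E t, t, 0), (0, 1, 2)) = ((eU E t, t, 2), (0, 1, 3)) := by
            simp [sg, d1]
          rw [e]
          refine ⟨?_, ?_, ?_⟩
          · rw [gg2_0 hp t 0 (by omega), gg0, g0_0 hp _ 0 (by omega), g0_0 hp _ 0 (by omega)]
          · rw [gg2_0 hp t 1 (by omega), gg0, g0_0 hp _ 1 (by omega), g0_0 hp _ 1 (by omega)]
          · rw [gg2_3, gg0, g0_2]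
        · have e : sg E ((v, t, 0), (0, 1, 2)) = ((v, t, 1), (1, 0, 2)) := by simp [sg, d1, d2]
          rw [e]
          exact ⟨by rw [gg1_1, gg0], by rw [gg1_0, gg0], by rw [gg1_2 hp, gg0]⟩
    · have e : sg E ((v, t, 0), (1, 0, 2)) = ((v, t, 1), (0, 1, 2)) := by simp [sg]
      rw [e]
      exact ⟨by rw [gg1_0, gg0], by rw [gg1_1, gg0], by rw [gg1_2 hp, gg0]⟩
    · have e : sg E ((v, t, 1), (0, 1, 2)) = ((v, t, 0), (1, 0, 2)) := by simp [sg]
      rw [e]
      exact ⟨by rw [gg1_0, gg0], by rw [gg1_1, gg0], by rw [gg1_2 hp, gg0]⟩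
    · have e : sg E ((v, t, 1), (1, 0, 2)) = ((v, nxt E.length t, 0), (0, 1, 2)) := by simp [sg]
      rw [e]
      exact ⟨by rw [gg1_1, gg0], by rw [gg1_0, gg0], by rw [gg1_2 hp, gg0]⟩
    · have e : sg E ((eU E t, t, 2), (0, 1, 2)) = ((eU E t, t, 1), (1, 0, 2)) := by simp [sg]
      rw [e]
      refine ⟨?_, ?_, ?_⟩
      · rw [gg2_0 hp t 0 (by omega), gg1_1]
      · rw [gg2_0 hp t 1 (by omega), gg1_0]
      · rw [gg2_2 hp t hne, gg1_2 hp]
    · have e : sg E ((eU E t, t, 2), (0, 1, 3)) = ((eW E t, t, 1), (1, 0, 2)) := by simp [sg]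
      rw [e]
      refine ⟨?_, ?_, ?_⟩
      · rw [gg2_0 hp t 0 (by omega), gg1_1, g0_0 hp _ 0 (by omega), g0_0 hp _ 0 (by omega)]
      · rw [gg2_0 hp t 1 (by omega), gg1_0, g0_0 hp _ 1 (by omega), g0_0 hp _ 1 (by omega)]
      · rw [gg2_3, gg1_2 hp, g0_2]
  · rw [sg_of_not_cut hcut]
    exact ⟨rfl, rfl, rfl⟩

/-- **A colouring of the input graph gives a star colouring.** -/
theorem star_of_col (hp : 3 ≤ p) (hk : 5 ≤ p + 2) (hE : OKE E)
    (hc : ∀ t, t < E.length → c (eU E t) ≠ c (eW E t)) :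
    ∃ f : PT (p + 2) E → Fin (p + 2), StarColouring (sys (p + 2) hk E hE).graph f := by
  have vf : ∀ f : FT (p + 2) E, VF (p + 2) E f.1 := fun f => mem_flagsL.1 f.2
  refine ⟨fun x => gg c E x.1.1 (io p x.1.2.1), star_of_labelling (sys (p + 2) hk E hE)
    (fun f => gg c E f.1.1 (io p f.1.2.1)) (fun f => gg c E f.1.1 (io p f.1.2.2.1))
    (fun f => gg c E f.1.1 (io p f.1.2.2.2)) ?_ ?_ ?_ _ (fun x => gg c E x.1.1 (io p x.1.2.2))
    ?_ ?_ ?_ ?_⟩
  · intro f e
    exact (vf f).2.2.2.2.2.2.1 (io_inj (vf f).2.2.2.1 (vf f).2.2.2.2.1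
      ((gg c E f.1.1).injective e))
  · intro f e
    exact (vf f).2.2.2.2.2.2.2.1 (io_inj (vf f).2.2.2.1 (vf f).2.2.2.2.2.1
      ((gg c E f.1.1).injective e))
  · intro f e
    exact (vf f).2.2.2.2.2.2.2.2 (io_inj (vf f).2.2.2.2.1 (vf f).2.2.2.2.2.1
      ((gg c E f.1.1).injective e))
  · exact fun f => (key hp hc (vf f)).1
  · exact fun f => (key hp hc (vf f)).2.1
  · intro f g hpt e
    have h1 : bs (sg E f.1) = bs (sg E g.1) := congrArg Subtype.val hpt
    simp only [bs, Prod.mk.injEq] at h1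
    obtain ⟨h2, h3, h4⟩ := h1
    have e1 := (key hp hc (vf f)).2.2
    have e2 := (key hp hc (vf g)).2.2
    have e3 : gg c E (sg E f.1).1 (io p (sg E f.1).2.2.2) =
        gg c E (sg E g.1).1 (io p (sg E g.1).2.2.2) := e1.trans (e.trans e2.symm)
    rw [h2] at e3
    have v1 := sg_valid hk hE (vf f)
    have v2 := sg_valid hk hE (vf g)
    have h5 := io_inj v1.2.2.2.2.2.1 v2.2.2.2.2.2.1 ((gg c E (sg E g.1).1).injective e3)
    apply Subtype.ext
    exact sg_inj hE (vf f) (vf g) (Prod.ext h2 (Prod.ext h3 (Prod.ext h4 h5)))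
  · exact fun f => ⟨rfl, rfl, rfl⟩

end

end Pool.Agent.NPC.R542.SR
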