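import Pool.Agent.R542.SR.Rigid

/-!
# Rigidity of the copies: both sides of the cut flags have the same labels
-/

set_option autoImplicit false

namespace Pool.Agent.NPC.R542.SR

variable {I C : Type} [Fintype I] [Fintype C] {o t h : I} {L1 L2 L3 M1 M2 M3 : I → I → I → C}

theorem Loc.swap (H : Loc o t h L1 L2 L3 M1 M2 M3) : Loc o t h L2 L1 L3 M2 M1 M3 := by
  have hneg : ∀ a b c, D3 a b c → (L2 b c a = L1 a b c ↔ ¬ pos L1 L2 a b c) := by
    intro a b c d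
    unfold pos
    have h1 := H.l12 a b c d
    have h2 := H.l13 a b c d
    have h3 := H.l23 a b c d
    rcases H.line a b c d with ⟨e1, e2, e3⟩ | ⟨e1, e2, e3⟩
    · exact ⟨fun e => absurd (e.symm.trans e2) h2, fun e => absurd e1 e⟩
    · exact ⟨fun _ e => h3 (e.symm.trans e1), fun _ => e2⟩
  refine ⟨H.l13, H.l23, fun a b c d => (H.l12 a b c d).symm, fun a b c d => (H.m12 a b c d).symm,
    H.m23, H.m13, H.p2, H.p1, H.p3, ?_, ?_, ?_⟩
  · intro a b c d
    rcases H.line a b c d with ⟨e1, e2, e3⟩ | ⟨e1, e2, e3⟩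
    · exact Or.inr ⟨e2, e1, e3⟩
    · exact Or.inl ⟨e2, e1, e3⟩
  · intro a b c d
    rw [hneg a b c d, hneg b c a d.rot]
    exact not_congr (H.sgn a b c d)
  · intro a b c d h1 h2
    obtain ⟨e1, e2, e3⟩ := H.un a b c d h1 h2
    exact ⟨e2, e1, e3⟩

theorem exists_ne3 (hc : 4 ≤ Fintype.card I) (a b c : I) : ∃ x, x ≠ a ∧ x ≠ b ∧ x ≠ c := by
  classical
  by_contra hno
  push Not at hno
  have : (Finset.univ : Finset I) ⊆ {a, b, c} := by
    intro x _
    simp only [Finset.mem_insert, Finset.mem_singleton]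
    by_cases h1 : x = a
    · exact Or.inl h1
    · by_cases h2 : x = b
      · exact Or.inr (Or.inl h2)
      · exact Or.inr (Or.inr (hno x h1 h2))
  have h2 := Finset.card_le_card this
  have h3 := Finset.card_le_three (a := a) (b := b) (c := c)
  rw [Finset.card_univ] at h2
  omega

/-- The conclusion for the cut flags. -/
def Concl (o t h : I) (L1 L2 L3 M1 M2 M3 : I → I → I → C) : Prop :=
  M1 o t h = L1 o t h ∧ M2 o t h = L2 o t h ∧ M3 o t h = L3 o t h ∧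
  M1 t o h = L1 t o h ∧ M2 t o h = L2 t o h ∧ M3 t o h = L3 t o h ∧
  L1 t o h = L2 o t h ∧ L2 t o h = L1 o t h ∧ L3 t o h = L3 o t h

theorem rigid_pos (H : Loc o t h L1 L2 L3 M1 M2 M3) (hot : o ≠ t) (hoh : o ≠ h) (hth : t ≠ h)
    {x y : I} (hxo : x ≠ o) (hxt : x ≠ t) (hxh : x ≠ h) (hyo : y ≠ o) (hyt : y ≠ t) (hyh : y ≠ h)
    (hxy : x ≠ y) (h4 : 4 ≤ Fintype.card I) (hcard : Fintype.card I = Fintype.card C)
    (hpos : ∀ a b c, D3 a b c → pos L1 L2 a b c) : Concl o t h L1 L2 L3 M1 M2 M3 := by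
  have hL : ∀ a b c, D3 a b c → L1 b c a = L2 a b c ∧ L2 b c a = L3 a b c ∧
      L3 b c a = L1 a b c := by
    intro a b c d
    rcases H.line a b c d with e | e
    · exact e
    · exact absurd ((hpos a b c d).symm.trans e.1) (H.l23 a b c d)
  have E1 : ∀ a b c, D3 a b c → ¬ (a = o ∧ b = t ∧ c = h) → ¬ (a = t ∧ b = o ∧ c = h) →
      ¬ (b = o ∧ c = t ∧ a = h) → ¬ (b = t ∧ c = o ∧ a = h) → M2 a b c = M1 b c a := by
    intro a b c d n1 n2 n3 n4
    rw [← (H.un a b c d n1 n2).2.1, ← (H.un b c a d.rot n3 n4).1]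
    exact (hL a b c d).1.symm
  have E2' : ∀ a b c, D3 a b c → a ≠ x → a ≠ y → b ≠ x → b ≠ y → c ≠ x → c ≠ y →
      M2 a b c = M1 b c a := by
    intro a b c d a1 a2 b1 b2 c1 c2
    have s1 := H.p2 a b c y d ⟨d.1, a2, b2⟩
    have s2 := E1 a b y ⟨d.1, a2, b2⟩ (by grind) (by grind) (by grind) (by grind)
    have s3 := H.p1 b y a x ⟨b2, d.1.symm, a2.symm⟩ ⟨b2, b1, hxy.symm⟩
    have s4 := E1 x b y ⟨b1.symm, hxy, b2⟩ (by grind) (by grind) (by grind) (by grind)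
    have s5 := H.p2 x b y c ⟨b1.symm, hxy, b2⟩ ⟨b1.symm, c1.symm, d.2.2⟩
    have s6 := E1 x b c ⟨b1.symm, c1.symm, d.2.2⟩ (by grind) (by grind) (by grind) (by grind)
    have s7 := H.p1 b c x a ⟨d.2.2, b1, c1⟩ d.rot
    rw [s1, s2, s3, ← s4, s5, s6, s7]
  have E2 : ∀ a b c, D3 a b c → M2 a b c = M1 b c a := by
    intro a b c d
    by_cases n1 : a = o ∧ b = t ∧ c = h
    · obtain ⟨rfl, rfl, rfl⟩ := n1
      exact E2' _ _ _ d hxo.symm hyo.symm hxt.symm hyt.symm hxh.symm hyh.symm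
    by_cases n2 : a = t ∧ b = o ∧ c = h
    · obtain ⟨rfl, rfl, rfl⟩ := n2
      exact E2' _ _ _ d hxt.symm hyt.symm hxo.symm hyo.symm hxh.symm hyh.symm
    by_cases n3 : b = o ∧ c = t ∧ a = h
    · obtain ⟨rfl, rfl, rfl⟩ := n3
      exact E2' _ _ _ d hxh.symm hyh.symm hxo.symm hyo.symm hxt.symm hyt.symm
    by_cases n4 : b = t ∧ c = o ∧ a = h
    · obtain ⟨rfl, rfl, rfl⟩ := n4
      exact E2' _ _ _ d hxh.symm hyh.symm hxt.symm hyt.symm hxo.symm hyo.symm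
    exact E1 a b c d n1 n2 n3 n4
  -- the map of the elements
  have hg : ∀ b : I, ∃ v : C, ∀ c d, D3 b c d → M1 b c d = v := by
    intro b
    obtain ⟨c₀, hc₀, _, _⟩ := exists_ne3 h4 b b b
    obtain ⟨d₀, hd₀, hd₀', _⟩ := exists_ne3 h4 b c₀ c₀
    refine ⟨M1 b c₀ d₀, fun c d hd => ?_⟩
    by_cases hcc : c = c₀
    · subst hcc
      exact H.p1 b c d d₀ hd ⟨hc₀.symm, hd₀.symm, hd₀'.symm⟩
    · obtain ⟨a, ha1, ha2, ha3⟩ := exists_ne3 h4 b c c₀
      have s1 := H.p1 b c d a hd ⟨hd.1, ha1.symm, ha2.symm⟩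
      have s2 := E2 a b c ⟨ha1, ha2, hd.1⟩
      have s3 := H.p2 a b c c₀ ⟨ha1, ha2, hd.1⟩ ⟨ha1, ha3, hc₀.symm⟩
      have s4 := E2 a b c₀ ⟨ha1, ha3, hc₀.symm⟩
      have s5 := H.p1 b c₀ a d₀ ⟨hc₀.symm, ha1.symm, ha3.symm⟩ ⟨hc₀.symm, hd₀.symm, hd₀'.symm⟩
      rw [s1, ← s2, s3, s4, s5]
  choose g hg using hg
  have hg1 : ∀ a b c, D3 a b c → M1 a b c = g a := fun a b c d => hg a b c d
  have hg2 : ∀ a b c, D3 a b c → M2 a b c = g b := fun a b c d => (E2 a b c d).trans (hg b c a d.rot)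
  have hginj : Function.Injective g := by
    intro a b e
    by_contra hab
    obtain ⟨c, hc1, hc2, _⟩ := exists_ne3 h4 a b b
    have d : D3 a b c := ⟨hab, hc1.symm, hc2.symm⟩
    apply H.m12 a b c d
    rw [hg1 a b c d, hg2 a b c d, e]
  have hgsurj : Function.Surjective g :=
    ((Fintype.bijective_iff_injective_and_card g).2 ⟨hginj, hcard⟩).2
  -- third entries
  have hu : ∀ a b c, D3 a b c → ¬ (a = o ∧ b = t ∧ c = h) → ¬ (a = t ∧ b = o ∧ c = h) →
      L1 a b c = g a ∧ L2 a b c = g b := by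
    intro a b c d n1 n2
    obtain ⟨e1, e2, _⟩ := H.un a b c d n1 n2
    exact ⟨e1.trans (hg1 a b c d), e2.trans (hg2 a b c d)⟩
  have d1 : D3 o t h := ⟨hot, hoh, hth⟩
  have d2 : D3 t o h := ⟨hot.symm, hth, hoh⟩
  have A1 : L1 o t h = g o ∧ L2 o t h = g t ∧ L3 o t h = g h := by
    have u1 := hu t h o d1.rot (by grind) (by grind)
    have u2 := hu h o t d1.rot.rot (by grind) (by grind)
    have r1 := hL o t h d1
    have r2 := hL t h o d1.rot
    have r3 := hL h o t d1.rot.rot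
    exact ⟨r3.1.trans u2.2, r1.1.symm.trans u1.1, r1.2.1.symm.trans u1.2⟩
  have A2 : L1 t o h = g t ∧ L2 t o h = g o ∧ L3 t o h = g h := by
    have u1 := hu o h t d2.rot (by grind) (by grind)
    have u2 := hu h t o d2.rot.rot (by grind) (by grind)
    have r1 := hL t o h d2
    have r3 := hL h t o d2.rot.rot
    exact ⟨r3.1.trans u2.2, r1.1.symm.trans u1.1, r1.2.1.symm.trans u1.2⟩
  -- third entries at the points of the cut flags
  have hthird : ∀ a b, ((a = o ∧ b = t) ∨ (a = t ∧ b = o)) → M3 a b h = g h := by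
    intro a b hab
    have dab : D3 a b h := by grind [D3]
    obtain ⟨z, hz⟩ := hgsurj (M3 a b h)
    rw [← hz]
    by_contra hne
    have hzh : z ≠ h := fun e => hne (by rw [e])
    have hza : z ≠ a := by
      rintro rfl
      apply H.m13 z b h dab
      rw [hg1 z b h dab, hz]
    have hzb : z ≠ b := by
      rintro rfl
      apply H.m23 a z h dab
      rw [hg2 a z h dab, hz]
    have dz : D3 a b z := ⟨dab.1, hza.symm, hzb.symm⟩
    -- the flag `(a, b, z)` is not cut, and neither is `(z, a, b)`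
    have e1 : M3 a b z = g z := by
      have u0 := (H.un a b z dz (by grind) (by grind)).2.2
      have u1 := hu z a b dz.rot.rot (by grind) (by grind)
      rw [← u0, (hL z a b dz.rot.rot).2.2, u1.1]
    exact hzh (H.p3 a b z h dz dab (e1.trans hz))
  refine ⟨?_, ?_, ?_, ?_, ?_, ?_, ?_, ?_, ?_⟩
  · rw [hg1 o t h d1, A1.1]
  · rw [hg2 o t h d1, A1.2.1]
  · rw [hthird o t (Or.inl ⟨rfl, rfl⟩), A1.2.2]
  · rw [hg1 t o h d2, A2.1]
  · rw [hg2 t o h d2, A2.2.1]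
  · rw [hthird t o (Or.inr ⟨rfl, rfl⟩), A2.2.2]
  · rw [A2.1, A1.2.1]
  · rw [A2.2.1, A1.1]
  · rw [A2.2.2, A1.2.2]

/-- **Rigidity.** -/
theorem rigid (H : Loc o t h L1 L2 L3 M1 M2 M3) (hot : o ≠ t) (hoh : o ≠ h) (hth : t ≠ h)
    {x y : I} (hxo : x ≠ o) (hxt : x ≠ t) (hxh : x ≠ h) (hyo : y ≠ o) (hyt : y ≠ t) (hyh : y ≠ h)
    (hxy : x ≠ y) (h4 : 4 ≤ Fintype.card I) (hcard : Fintype.card I = Fintype.card C) :
    Concl o t h L1 L2 L3 M1 M2 M3 := by
  have hs := all_same H hot hoh hth hxo hxt hxh hyo hyt hyh hxy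
  by_cases hp : pos L1 L2 o x y
  · exact rigid_pos H hot hoh hth hxo hxt hxh hyo hyt hyh hxy h4 hcard
      (fun a b c d => (hs a b c d).2 hp)
  · have hneg : ∀ a b c, D3 a b c → pos L2 L1 a b c := by
      intro a b c d
      have h1 : ¬ pos L1 L2 a b c := fun h' => hp ((hs a b c d).1 h')
      rcases H.line a b c d with e | e
      · exact absurd e.1 h1
      · exact e.2.1
    obtain ⟨e1, e2, e3, e4, e5, e6, e7, e8, e9⟩ :=
      rigid_pos H.swap hot hoh hth hxo hxt hxh hyo hyt hyh hxy h4 hcard hneg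
    exact ⟨e2, e1, e3, e5, e4, e6, e8, e7, e9⟩

end Pool.Agent.NPC.R542.SR
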