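import Pool.Agent.R542.SR.Sys
import Pool.Agent.R542.SR.Rigid2

/-!
# Correctness of the reduction
-/

set_option autoImplicit false

namespace Pool.Agent.NPC.R542.SR

variable {p : ℕ} {E : List (ℕ × ℕ)}

/-! ### From star colourings to colourings -/

section forward
variable (hk : 5 ≤ p + 2) (hE : OKE E) (lab : Labelling (sys (p + 2) hk E hE) (Fin (p + 2)))

open Classical in
/-- labels of all flags, on the side of the line -/
noncomputable def lf (f : FlagN) : Fin (p + 2) × Fin (p + 2) × Fin (p + 2) :=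
  if h : f ∈ flagsL (p + 2) E then (lab.l1 ⟨f, h⟩, lab.l2 ⟨f, h⟩, lab.l3 ⟨f, h⟩) else (0, 0, 0)

/-- labels on the side of the point -/
noncomputable def mf (f : FlagN) : Fin (p + 2) × Fin (p + 2) × Fin (p + 2) :=
  lf hk hE lab (sgi E f)

theorem lf_eq {f : FlagN} (h : VF (p + 2) E f) : lf hk hE lab f =
    (lab.l1 ⟨f, mem_flagsL.2 h⟩, lab.l2 ⟨f, mem_flagsL.2 h⟩, lab.l3 ⟨f, mem_flagsL.2 h⟩) :=
  dif_pos (mem_flagsL.2 h)

theorem mf_sg {f : FlagN} (h : VF (p + 2) E f) : mf hk hE lab (sg E f) = lf hk hE lab f := by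
  unfold mf
  rw [sgi_sg hE h]

theorem sgi_valid (hk : 5 ≤ p + 2) (hE : OKE E) {g : FlagN} (h : VF (p + 2) E g) :
    VF (p + 2) E (sgi E g) ∧ sg E (sgi E g) = g := by
  obtain ⟨f, hf⟩ := (sgT_bij hk hE).2 ⟨g, mem_flagsL.2 h⟩
  have e : sg E f.1 = g := congrArg Subtype.val hf
  have vf := mem_flagsL.1 f.2
  have e2 : sgi E g = f.1 := by rw [← e, sgi_sg hE vf]
  rw [e2]
  exact ⟨vf, e⟩

theorem sgi_of_not_cut {f : FlagN} (hE : OKE E) (h : VF (p + 2) E f) (hc : ¬ Cut E f) :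
    sgi E f = f := by
  have := sgi_sg hE h
  rwa [sg_of_not_cut hc] at this

/-- the flag of a copy -/
def fl (α : ℕ × ℕ × ℕ) (a b c : Fin (p + 2)) : FlagN := (α, ((a : ℕ), (b : ℕ), (c : ℕ)))

theorem fl_valid {α : ℕ × ℕ × ℕ} (h1 : α.1 < 2 * E.length) (h2 : α.2.1 < E.length)
    (h3 : α.2.2 < 3) {a b c : Fin (p + 2)} (d : D3 a b c) : VF (p + 2) E (fl α a b c) :=
  ⟨h1, h2, h3, a.2, b.2, c.2, fun e => d.1 (Fin.ext e), fun e => d.2.1 (Fin.ext e),
    fun e => d.2.2 (Fin.ext e)⟩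

theorem loc_of_labelling {α : ℕ × ℕ × ℕ} (h1 : α.1 < 2 * E.length) (h2 : α.2.1 < E.length)
    (h3 : α.2.2 < 2) :
    Loc (0 : Fin (p + 2)) ⟨1, by omega⟩ ⟨2, by omega⟩
      (fun a b c => (lf hk hE lab (fl α a b c)).1) (fun a b c => (lf hk hE lab (fl α a b c)).2.1)
      (fun a b c => (lf hk hE lab (fl α a b c)).2.2) (fun a b c => (mf hk hE lab (fl α a b c)).1)
      (fun a b c => (mf hk hE lab (fl α a b c)).2.1)
      (fun a b c => (mf hk hE lab (fl α a b c)).2.2) := by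
  have h3' : α.2.2 < 3 := by omega
  have vf : ∀ {a b c : Fin (p + 2)}, D3 a b c → VF (p + 2) E (fl α a b c) :=
    fun d => fl_valid h1 h2 h3' d
  have vm : ∀ {a b c : Fin (p + 2)}, D3 a b c → VF (p + 2) E (sgi E (fl α a b c)) :=
    fun d => (sgi_valid hk hE (vf d)).1
  have hpt : ∀ {a b c d : Fin (p + 2)} (h : D3 a b c) (h' : D3 a b d),
      (sys (p + 2) hk E hE).pt ⟨sgi E (fl α a b c), mem_flagsL.2 (vm h)⟩ =
      (sys (p + 2) hk E hE).pt ⟨sgi E (fl α a b d), mem_flagsL.2 (vm h')⟩ := by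
    intro a b c d h h'
    apply Subtype.ext
    change bs (sg E (sgi E (fl α a b c))) = bs (sg E (sgi E (fl α a b d)))
    rw [(sgi_valid hk hE (vf h)).2, (sgi_valid hk hE (vf h')).2]
    rfl
  have hline := lab.line
  refine ⟨?_, ?_, ?_, ?_, ?_, ?_, ?_, ?_, ?_, ?_, ?_, ?_⟩
  · intro a b c d
    simp only [lf_eq hk hE lab (vf d)]
    exact lab.h23 _
  · intro a b c d
    simp only [lf_eq hk hE lab (vf d)]
    exact lab.h13 _
  · intro a b c d
    simp only [lf_eq hk hE lab (vf d)]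
    exact lab.h12 _
  · intro a b c d
    simp only [mf, lf_eq hk hE lab (vm d)]
    exact lab.h12 _
  · intro a b c d
    simp only [mf, lf_eq hk hE lab (vm d)]
    exact lab.h13 _
  · intro a b c d
    simp only [mf, lf_eq hk hE lab (vm d)]
    exact lab.h23 _
  · intro a b c d h h'
    simp only [mf, lf_eq hk hE lab (vm h), lf_eq hk hE lab (vm h')]
    exact lab.same1 _ _ (hpt h h')
  · intro a b c d h h'
    simp only [mf, lf_eq hk hE lab (vm h), lf_eq hk hE lab (vm h')]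
    exact lab.same2 _ _ (hpt h h')
  · intro a b c d h h' e
    simp only [mf, lf_eq hk hE lab (vm h), lf_eq hk hE lab (vm h')] at e
    have e1 := congrArg Subtype.val (lab.third _ _ (hpt h h') e)
    simp only at e1
    have e2 : fl α a b c = fl α a b d := by
      rw [← (sgi_valid hk hE (vf h)).2, ← (sgi_valid hk hE (vf h')).2, e1]
    simp only [fl, Prod.mk.injEq, true_and] at e2
    exact Fin.ext e2
  · intro a b c d
    simp only [lf_eq hk hE lab (vf d), lf_eq hk hE lab (vf d.rot)]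
    rcases hline ⟨fl α a b c, mem_flagsL.2 (vf d)⟩ with e | e
    · exact Or.inl ⟨e.1, e.2.1, e.2.2.1⟩
    · exact Or.inr ⟨e.1, e.2.1, e.2.2.1⟩
  · intro a b c d
    simp only [lf_eq hk hE lab (vf d), lf_eq hk hE lab (vf d.rot), lf_eq hk hE lab (vf d.rot.rot)]
    rcases hline ⟨fl α a b c, mem_flagsL.2 (vf d)⟩ with e | e
    · exact ⟨fun _ => e.2.2.2.1.trans e.2.1.symm, fun _ => e.1⟩
    · constructor
      · intro h
        exact absurd (h.symm.trans e.1) (lab.h23 _)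
      · intro h
        have h' : lab.l2 ⟨fl α a b c, mem_flagsL.2 (vf d)⟩ =
            lab.l1 ⟨fl α a b c, mem_flagsL.2 (vf d)⟩ := e.2.2.2.1.symm.trans (h.trans e.2.1)
        exact absurd h'.symm (lab.h12 _)
  · intro a b c d n1 n2
    have hc : ¬ Cut E (fl α a b c) := by
      unfold Cut fl
      simp only [Prod.mk.injEq]
      have e1 : ¬ ((a : ℕ) = 0 ∧ (b : ℕ) = 1 ∧ (c : ℕ) = 2) := fun e =>
        n1 ⟨Fin.ext e.1, Fin.ext e.2.1, Fin.ext e.2.2⟩
      have e2 : ¬ ((a : ℕ) = 1 ∧ (b : ℕ) = 0 ∧ (c : ℕ) = 2) := fun e =>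
        n2 ⟨Fin.ext e.1, Fin.ext e.2.1, Fin.ext e.2.2⟩
      rintro (⟨_, e⟩ | ⟨_, e⟩ | ⟨_, e⟩ | ⟨_, e⟩ | ⟨e, _⟩ | ⟨e, _⟩)
      · exact e1 e
      · exact e2 e
      · exact e1 e
      · exact e2 e
      · omega
      · omega
    simp only [mf, sgi_of_not_cut hE (vf d) hc, true_and]

/-- exchange of the first two entries -/
def sw {C : Type} (x : C × C × C) : C × C × C := (x.2.1, x.1, x.2.2)

theorem copy_rigid {v t s : ℕ} (h1 : v < 2 * E.length) (h2 : t < E.length) (h3 : s < 2) :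
    mf hk hE lab ((v, t, s), (0, 1, 2)) = lf hk hE lab ((v, t, s), (0, 1, 2)) ∧
    mf hk hE lab ((v, t, s), (1, 0, 2)) = lf hk hE lab ((v, t, s), (1, 0, 2)) ∧
    lf hk hE lab ((v, t, s), (1, 0, 2)) = sw (lf hk hE lab ((v, t, s), (0, 1, 2))) := by
  have H := loc_of_labelling hk hE lab (α := (v, t, s)) h1 h2 h3
  have hne : ∀ a b : ℕ, ∀ (ha : a < p + 2) (hb : b < p + 2), a ≠ b →
      (⟨a, ha⟩ : Fin (p + 2)) ≠ ⟨b, hb⟩ := fun a b ha hb h e => h (Fin.mk.inj_iff.1 e)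
  have R := rigid (x := (⟨3, by omega⟩ : Fin (p + 2))) (y := ⟨4, by omega⟩) H
    (hne 0 1 _ _ (by omega)) (hne 0 2 _ _ (by omega)) (hne 1 2 _ _ (by omega))
    (hne 3 0 _ _ (by omega)) (hne 3 1 _ _ (by omega)) (hne 3 2 _ _ (by omega))
    (hne 4 0 _ _ (by omega)) (hne 4 1 _ _ (by omega)) (hne 4 2 _ _ (by omega))
    (hne 3 4 _ _ (by omega)) (by rw [Fintype.card_fin]; omega) rfl
  obtain ⟨e1, e2, e3, e4, e5, e6, e7, e8, e9⟩ := R
  exact ⟨Prod.ext e1 (Prod.ext e2 e3), Prod.ext e4 (Prod.ext e5 e6),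
    Prod.ext e7 (Prod.ext e8 e9)⟩

theorem valA {v t s : ℕ} (hk : 5 ≤ p + 2) (h1 : v < 2 * E.length) (h2 : t < E.length)
    (h3 : s < 3) : VF (p + 2) E ((v, t, s), (0, 1, 2)) := by
  refine ⟨h1, h2, h3, ?_, ?_, ?_, ?_, ?_, ?_⟩ <;> simp only <;> omega

theorem valB {v t s : ℕ} (hk : 5 ≤ p + 2) (h1 : v < 2 * E.length) (h2 : t < E.length)
    (h3 : s < 3) : VF (p + 2) E ((v, t, s), (1, 0, 2)) := by
  refine ⟨h1, h2, h3, ?_, ?_, ?_, ?_, ?_, ?_⟩ <;> simp only <;> omega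

theorem lf_const {v t : ℕ} (h1 : v < 2 * E.length) (h2 : t < E.length) :
    lf hk hE lab ((v, t, 0), (0, 1, 2)) = lf hk hE lab ((v, 0, 0), (0, 1, 2)) := by
  induction t with
  | zero => rfl
  | succ t ih =>
    have ht : t < E.length := by omega
    rw [← ih ht]
    obtain ⟨a1, a2, a3⟩ := copy_rigid hk hE lab (s := 0) h1 ht (by omega)
    obtain ⟨b1, b2, b3⟩ := copy_rigid hk hE lab (s := 1) h1 ht (by omega)
    obtain ⟨c1, _, _⟩ := copy_rigid hk hE lab (s := 0) h1 h2 (by omega)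
    have s1 : sg E ((v, t, 0), (1, 0, 2)) = ((v, t, 1), (0, 1, 2)) := by simp [sg]
    have s2 : sg E ((v, t, 1), (1, 0, 2)) = ((v, t + 1, 0), (0, 1, 2)) := by
      have : nxt E.length t = t + 1 := if_neg (by omega)
      simp [sg, this]
    have m1 := mf_sg hk hE lab (valB (s := 0) hk h1 ht (by omega))
    have m2 := mf_sg hk hE lab (valB (s := 1) hk h1 ht (by omega))
    rw [s1] at m1
    rw [s2] at m2
    rw [← c1, m2, b3, ← b1, m1, a3]
    rfl

/-- reduction of the third entry -/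
def rd (i j c : ℕ) : ℕ := c - (if i < c then 1 else 0) - (if j < c then 1 else 0)

theorem rd_lt {i j c : ℕ} (hi : i < p + 2) (hj : j < p + 2) (hc : c < p + 2) (hij : i ≠ j)
    (hic : i ≠ c) (hjc : j ≠ c) : rd i j c < p := by
  unfold rd
  split_ifs <;> omega

theorem rd_inj {i j c c' : ℕ} (hij : i ≠ j) (hic : i ≠ c) (hjc : j ≠ c) (hic' : i ≠ c')
    (hjc' : j ≠ c') (h : rd i j c = rd i j c') : c = c' := by
  unfold rd at h
  split_ifs at h <;> omega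

include hk lab in
/-- **A labelling gives a colouring of the input graph.** -/
theorem col_of_labelling : ∃ c : ℕ → Fin p, ∀ t, t < E.length → c (eU E t) ≠ c (eW E t) := by
  have hp : 0 < p := by omega
  let τ : ℕ → Fin (p + 2) × Fin (p + 2) × Fin (p + 2) := fun v =>
    lf hk hE lab ((v, 0, 0), (0, 1, 2))
  refine ⟨fun v => ⟨rd (τ v).1 (τ v).2.1 (τ v).2.2 % p, Nat.mod_lt _ hp⟩, fun t ht e => ?_⟩
  obtain ⟨g1, g2, g3⟩ := hE t ht
  -- the two flags at the common point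
  have vu := valA (s := 0) hk g1 ht (by omega)
  have vw := valA (s := 0) hk g2 ht (by omega)
  have su : sg E ((eU E t, t, 0), (0, 1, 2)) = ((eU E t, t, 2), (0, 1, 2)) := by simp [sg]
  have sv : sg E ((eW E t, t, 0), (0, 1, 2)) = ((eU E t, t, 2), (0, 1, 3)) := by
    simp [sg, g3.symm]
  have hpt : (sys (p + 2) hk E hE).pt ⟨_, mem_flagsL.2 vu⟩ =
      (sys (p + 2) hk E hE).pt ⟨_, mem_flagsL.2 vw⟩ := by
    apply Subtype.ext
    change bs (sg E _) = bs (sg E _)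
    rw [su, sv]
    rfl
  have q1 := lab.same1 _ _ hpt
  have q2 := lab.same2 _ _ hpt
  have q3 : lab.l3 ⟨_, mem_flagsL.2 vu⟩ ≠ lab.l3 ⟨_, mem_flagsL.2 vw⟩ := by
    intro e3
    have := congrArg Subtype.val (lab.third _ _ hpt e3)
    simp only [Prod.mk.injEq, and_true] at this
    exact g3 this
  have hu : τ (eU E t) = (lab.l1 ⟨_, mem_flagsL.2 vu⟩, lab.l2 ⟨_, mem_flagsL.2 vu⟩,
      lab.l3 ⟨_, mem_flagsL.2 vu⟩) := by
    rw [← lf_eq hk hE lab vu]
    exact (lf_const hk hE lab g1 ht).symm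
  have hw : τ (eW E t) = (lab.l1 ⟨_, mem_flagsL.2 vw⟩, lab.l2 ⟨_, mem_flagsL.2 vw⟩,
      lab.l3 ⟨_, mem_flagsL.2 vw⟩) := by
    rw [← lf_eq hk hE lab vw]
    exact (lf_const hk hE lab g2 ht).symm
  have e' := congrArg Fin.val e
  simp only [hu, hw] at e'
  have n1 := lab.h12 ⟨_, mem_flagsL.2 vu⟩
  have n2 := lab.h13 ⟨_, mem_flagsL.2 vu⟩
  have n3 := lab.h23 ⟨_, mem_flagsL.2 vu⟩
  have n4 := lab.h13 ⟨_, mem_flagsL.2 vw⟩
  have n5 := lab.h23 ⟨_, mem_flagsL.2 vw⟩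
  rw [← q1] at n4
  rw [← q2] at n5
  rw [← q1, ← q2] at e'
  have nn : ∀ {x y : Fin (p + 2)}, x ≠ y → (x : ℕ) ≠ y := fun h h' => h (Fin.ext h')
  rw [Nat.mod_eq_of_lt (rd_lt (Fin.is_lt _) (Fin.is_lt _) (Fin.is_lt _) (nn n1) (nn n2) (nn n3)),
    Nat.mod_eq_of_lt (rd_lt (Fin.is_lt _) (Fin.is_lt _) (Fin.is_lt _) (nn n1) (nn n4)
      (nn n5))] at e'
  exact q3 (Fin.ext (rd_inj (nn n1) (nn n2) (nn n3) (nn n4) (nn n5) e'))

end forward

end Pool.Agent.NPC.R542.SR
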