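import Mathlib

/-!
# Star colourings of `2p`-regular graphs with `p + 2` colours
-/

set_option autoImplicit false

namespace Pool.Agent.NPC.R542.SR

open SimpleGraph Finset

/-- `f` is a star colouring of `G`: a proper vertex colouring such that no path `a b c d` on four
vertices has only two colours. -/
def StarColouring {V : Type} {k : ℕ} (G : SimpleGraph V) (f : V → Fin k) : Prop :=
  (∀ u v, G.Adj u v → f u ≠ f v) ∧
  ∀ a b c d, a ≠ b → a ≠ c → a ≠ d → b ≠ c → b ≠ d → c ≠ d →
    G.Adj a b → G.Adj b c → G.Adj c d → 3 ≤ ({f a, f b, f c, f d} : Finset (Fin k)).card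

theorem star_iff {V : Type} {k : ℕ} (G : SimpleGraph V) (f : V → Fin k) :
    StarColouring G f ↔ (∀ u v, G.Adj u v → f u ≠ f v) ∧
      ∀ a b c d, G.Adj a b → G.Adj b c → G.Adj c d → a ≠ c → b ≠ d → f a = f c → f b ≠ f d := by
  constructor
  · rintro ⟨h1, h2⟩
    refine ⟨h1, fun a b c d hab hbc hcd hac hbd e1 e2 => ?_⟩
    have had : a ≠ d := by
      rintro rfl
      exact h1 _ _ hcd e1.symm
    have h3 := h2 a b c d hab.ne hac had hbc.ne hbd hcd.ne hab hbc hcd
    rw [← e1, ← e2] at h3
    have h4 : ({f a, f b, f a, f b} : Finset (Fin k)) = {f a, f b} := by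
      ext x
      simp only [mem_insert, mem_singleton]
      tauto
    rw [h4] at h3
    have h5 := Finset.card_le_two (a := f a) (b := f b)
    omega
  · rintro ⟨h1, h2⟩
    refine ⟨h1, fun a b c d _ hac _ _ hbd _ hab hbc hcd => ?_⟩
    by_contra hlt
    have hab' := h1 _ _ hab
    have hbc' := h1 _ _ hbc
    have hcd' := h1 _ _ hcd
    have hcase : f a = f c ∧ f b = f d := by
      by_contra hno
      apply hlt
      by_cases e1 : f a = f c
      · have e2 : f b ≠ f d := fun e => hno ⟨e1, e⟩
        have : ({f c, f b, f d} : Finset (Fin k)) ⊆ {f a, f b, f c, f d} := by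
          intro x
          simp only [mem_insert, mem_singleton]
          tauto
        refine le_trans ?_ (Finset.card_le_card this)
        rw [Finset.card_eq_three.2 ⟨f c, f b, f d, hbc'.symm, hcd', e2, rfl⟩]
      · have : ({f a, f b, f c} : Finset (Fin k)) ⊆ {f a, f b, f c, f d} := by
          intro x
          simp only [mem_insert, mem_singleton]
          tauto
        refine le_trans ?_ (Finset.card_le_card this)
        rw [Finset.card_eq_three.2 ⟨f a, f b, f c, hab', e1, hbc', rfl⟩]
    exact h2 a b c d hab hbc hcd hac hbd hcase.1 hcase.2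

section
variable {V : Type} [Fintype V] {p : ℕ} (G : SimpleGraph V) (f : V → Fin (p + 2))

open Classical in
/-- neighbours of `v` of the same colour as `w` -/
noncomputable def same (v w : V) : Finset V := univ.filter fun x => G.Adj v x ∧ f x = f w

/-- `w` is the only neighbour of `v` of its colour -/
def Leaf (v w : V) : Prop := G.Adj v w ∧ ∀ x, G.Adj v x → f x = f w → x = w

open Classical in
/-- **The local structure of star colourings with `p + 2` colours of `2p`-regular graphs.** -/
theorem structure_of_star (hp : 2 ≤ p) (hreg : ∀ v, (univ.filter fun w => G.Adj v w).card = 2 * p)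
    (hf : StarColouring G f) :
    ∃ j : V → Fin (p + 2), (∀ v, j v ≠ f v) ∧
      (∀ u v, G.Adj u v → f u = j v ∨ f v = j u) ∧
      ∀ v a b, G.Adj v a → G.Adj v b → f a = f b → f a ≠ j v → a = b := by
  rw [star_iff] at hf
  obtain ⟨h1, h2⟩ := hf
  -- leaves of a vertex
  let L : V → Finset V := fun v => univ.filter fun w => Leaf G f v w
  have hinj : ∀ v, Set.InjOn f (L v : Set V) := by
    intro v a ha b hb e
    rw [mem_coe, mem_filter] at ha hb
    exact hb.2.2 a ha.2.1 e
  have himg : ∀ v, (L v).image f ⊆ univ.erase (f v) := by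
    intro v x hx
    rw [mem_image] at hx
    obtain ⟨w, hw, rfl⟩ := hx
    rw [mem_filter] at hw
    exact mem_erase.2 ⟨(h1 _ _ hw.2.1).symm, mem_univ _⟩
  have hcardimg : ∀ v, ((L v).image f).card = (L v).card := fun v => card_image_of_injOn (hinj v)
  have hle : ∀ v, (L v).card ≤ p := by
    intro v
    by_contra hlt
    rw [not_le] at hlt
    have h3 : (univ.erase (f v)).card = p + 1 := by
      rw [card_erase_of_mem (mem_univ _), card_univ, Fintype.card_fin]
      rfl
    have h4 : (L v).image f = univ.erase (f v) := by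
      apply eq_of_subset_of_card_le (himg v)
      rw [hcardimg, h3]
      omega
    have h5 : (univ.filter fun w => G.Adj v w) ⊆ L v := by
      intro w hw
      rw [mem_filter] at hw
      have h6 : f w ∈ (L v).image f := by
        rw [h4]
        exact mem_erase.2 ⟨(h1 _ _ hw.2).symm, mem_univ _⟩
      rw [mem_image] at h6
      obtain ⟨x, hx, e⟩ := h6
      have hx' := hx
      rw [mem_filter] at hx'
      rw [hx'.2.2 w hw.2 e.symm]
      exact hx
    have h7 := card_le_card h5
    rw [hreg v] at h7
    have h8 : (L v).card = p + 1 := by rw [← hcardimg, h4, h3]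
    omega
  -- darts
  let A : Finset (V × V) := univ.filter fun d => G.Adj d.1 d.2
  let D : Finset (V × V) := univ.filter fun d => Leaf G f d.1 d.2
  let D' : Finset (V × V) := univ.filter fun d => Leaf G f d.2 d.1
  have hDD' : D.card = D'.card := by
    apply Finset.card_bij (fun d _ => (d.2, d.1))
    · intro d hd
      rw [mem_filter] at hd ⊢
      exact ⟨mem_univ _, hd.2⟩
    · rintro ⟨a, b⟩ _ ⟨c, d⟩ _ e
      simp only [Prod.mk.injEq] at e
      rw [e.1, e.2]
    · rintro ⟨a, b⟩ hd
      rw [mem_filter] at hd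
      exact ⟨(b, a), mem_filter.2 ⟨mem_univ _, hd.2⟩, rfl⟩
  have hsum : ∀ (R : V → V → Prop), (univ.filter fun d : V × V => R d.1 d.2).card =
      ∑ v : V, (univ.filter fun w => R v w).card := by
    intro R
    rw [Finset.card_filter, Fintype.sum_prod_type]
    apply Finset.sum_congr rfl
    intro v _
    rw [Finset.card_filter]
  have hA : A.card = Fintype.card V * (2 * p) := by
    have := hsum (fun v w => G.Adj v w)
    change (univ.filter fun d : V × V => G.Adj d.1 d.2).card = _
    rw [this, Finset.sum_congr rfl (fun v _ => hreg v), Finset.sum_const, card_univ, smul_eq_mul]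
  have hD : D.card = ∑ v : V, (L v).card := hsum (fun v w => Leaf G f v w)
  have hDle : D.card ≤ Fintype.card V * p := by
    rw [hD]
    calc ∑ v : V, (L v).card ≤ ∑ _v : V, p := Finset.sum_le_sum fun v _ => hle v
      _ = _ := by rw [Finset.sum_const, card_univ, smul_eq_mul]
  have hcov : A ⊆ D ∪ D' := by
    rintro ⟨u, v⟩ hd
    rw [mem_filter] at hd
    rw [mem_union, mem_filter, mem_filter]
    by_contra hno
    rw [not_or] at hno
    obtain ⟨n1, n2⟩ := hno
    have n1' : ¬ Leaf G f u v := fun h => n1 ⟨mem_univ _, h⟩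
    have n2' : ¬ Leaf G f v u := fun h => n2 ⟨mem_univ _, h⟩
    have huv : G.Adj u v := hd.2
    have m1 : ∃ x, G.Adj u x ∧ f x = f v ∧ x ≠ v := by
      by_contra hh
      push Not at hh
      exact n1' ⟨huv, fun x hx e => hh x hx e⟩
    have m2 : ∃ x, G.Adj v x ∧ f x = f u ∧ x ≠ u := by
      by_contra hh
      push Not at hh
      exact n2' ⟨huv.symm, fun x hx e => hh x hx e⟩
    obtain ⟨x, hx, ex, nx⟩ := m1
    obtain ⟨y, hy, ey, ny⟩ := m2
    exact h2 x u v y hx.symm huv hy nx ny.symm ex ey.symm
  have hcard : A.card ≤ (D ∪ D').card := card_le_card hcov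
  have hun := Finset.card_union_add_card_inter D D'
  have hint : (D ∩ D').card = 0 := by
    have : A.card = 2 * (Fintype.card V * p) := by rw [hA]; ring
    omega
  have hDeq : D.card = Fintype.card V * p := by
    have : A.card = 2 * (Fintype.card V * p) := by rw [hA]; ring
    omega
  have hLeq : ∀ v, (L v).card = p := by
    have h3 : ∑ v : V, (L v).card = ∑ _v : V, p := by
      rw [← hD, hDeq, Finset.sum_const, card_univ, smul_eq_mul]
    have h4 := (Finset.sum_eq_sum_iff_of_le (fun v (_ : v ∈ (univ : Finset V)) => hle v)).1 h3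
    exact fun v => h4 v (mem_univ v)
  -- the remaining colour
  have hj : ∀ v, ∃ j : Fin (p + 2), j ≠ f v ∧ ∀ c, c ≠ f v → c ≠ j → c ∈ (L v).image f := by
    intro v
    have h3 : ((univ.erase (f v)) \ (L v).image f).card = 1 := by
      rw [card_sdiff_of_subset (himg v), card_erase_of_mem (mem_univ _), card_univ, Fintype.card_fin,
        hcardimg, hLeq]
      omega
    obtain ⟨j, hj⟩ := card_eq_one.1 h3
    have hj' : j ∈ (univ.erase (f v)) \ (L v).image f := by rw [hj]; exact mem_singleton_self _
    rw [mem_sdiff, mem_erase] at hj'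
    refine ⟨j, hj'.1.1, fun c hc hcj => ?_⟩
    by_contra hno
    have : c ∈ (univ.erase (f v)) \ (L v).image f :=
      mem_sdiff.2 ⟨mem_erase.2 ⟨hc, mem_univ _⟩, hno⟩
    rw [hj, mem_singleton] at this
    exact hcj this
  choose j hj1 hj2 using hj
  have huniq : ∀ v a b, G.Adj v a → G.Adj v b → f a = f b → f a ≠ j v → a = b := by
    intro v a b ha hb e hne
    have h3 := hj2 v (f a) (h1 _ _ ha).symm hne
    rw [mem_image] at h3
    obtain ⟨x, hx, ex⟩ := h3
    rw [mem_filter] at hx
    rw [hx.2.2 a ha ex.symm, hx.2.2 b hb (e.symm.trans ex.symm)]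
  refine ⟨j, hj1, ?_, huniq⟩
  intro u v huv
  by_contra hno
  rw [not_or] at hno
  have l1 : Leaf G f v u := ⟨huv.symm, fun x hx e => huniq v x u hx huv.symm e (by
    rw [e]; exact hno.1)⟩
  have l2 : Leaf G f u v := ⟨huv, fun x hx e => huniq u x v hx huv e (by
    rw [e]; exact hno.2)⟩
  have h5 : (u, v) ∈ D ∩ D' := mem_inter.2 ⟨mem_filter.2 ⟨mem_univ _, l2⟩,
    mem_filter.2 ⟨mem_univ _, l1⟩⟩
  rw [card_eq_zero] at hint
  rw [hint] at h5
  exact absurd h5 (notMem_empty _)

end

end Pool.Agent.NPC.R542.SR
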