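import Pool.Agent.R542.SR.Count

/-!
# Graphs from systems of flags, and labellings
-/

set_option autoImplicit false

namespace Pool.Agent.NPC.R542.SR

open SimpleGraph Finset

/-- A system of flags: every flag lies on a point and on a line; the lines are the orbits of the
rotation, and have three points; two lines have at most one point in common. -/
structure Flags (F P : Type) where
  /-- the next flag on the line -/
  rot : F → F
  /-- the point of a flag -/
  pt : F → P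
  rot3 : ∀ f, rot (rot (rot f)) = f
  ne : ∀ f, pt f ≠ pt (rot f)
  lin : ∀ f g, pt f = pt g → (pt (rot f) = pt (rot g) ∨ pt (rot f) = pt (rot (rot g)) ∨
    pt (rot (rot f)) = pt (rot (rot g))) → f = g

namespace Flags
variable {F P : Type} (X : Flags F P)

theorem ne2 (f : F) : X.pt f ≠ X.pt (X.rot (X.rot f)) := by
  intro h
  have := X.ne (X.rot (X.rot f))
  rw [X.rot3] at this
  exact this h.symm

theorem ne3 (f : F) : X.pt (X.rot f) ≠ X.pt (X.rot (X.rot f)) := X.ne (X.rot f)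

/-- The collinearity graph. -/
def graph : SimpleGraph P where
  Adj x y := ∃ f, X.pt f = x ∧ (X.pt (X.rot f) = y ∨ X.pt (X.rot (X.rot f)) = y)
  symm := ⟨by
    rintro x y ⟨f, rfl, rfl | rfl⟩
    · exact ⟨X.rot f, rfl, Or.inr (by rw [X.rot3])⟩
    · exact ⟨X.rot (X.rot f), rfl, Or.inl (by rw [X.rot3])⟩⟩
  loopless := ⟨by
    rintro x ⟨f, rfl, h | h⟩
    · exact X.ne f h.symm
    · exact X.ne2 f h.symm⟩

/-- the neighbour of a flag -/
def nb (f : F) (b : Bool) : P := if b then X.pt (X.rot f) else X.pt (X.rot (X.rot f))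

theorem adj_iff (x y : P) : X.graph.Adj x y ↔ ∃ f b, X.pt f = x ∧ X.nb f b = y := by
  constructor
  · rintro ⟨f, h1, h2 | h2⟩
    · exact ⟨f, true, h1, h2⟩
    · exact ⟨f, false, h1, h2⟩
  · rintro ⟨f, b, h1, h2⟩
    cases b
    · exact ⟨f, h1, Or.inr h2⟩
    · exact ⟨f, h1, Or.inl h2⟩

theorem nb_inj {f g : F} {b c : Bool} (h : X.pt f = X.pt g) (h2 : X.nb f b = X.nb g c) :
    f = g ∧ b = c := by
  have hfg : f = g := by
    cases b <;> cases c <;> simp only [nb, Bool.false_eq_true, if_true, if_false] at h2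
    · exact X.lin f g h (Or.inr (Or.inr h2))
    · exact (X.lin g f h.symm (Or.inr (Or.inl h2.symm))).symm
    · exact X.lin f g h (Or.inr (Or.inl h2))
    · exact X.lin f g h (Or.inl h2)
  refine ⟨hfg, ?_⟩
  subst hfg
  cases b <;> cases c <;> simp only [nb, Bool.false_eq_true, if_true, if_false] at h2
  · rfl
  · exact absurd h2.symm (X.ne3 f)
  · exact absurd h2 (X.ne3 f)
  · rfl

/-- Two neighbours on the same line are adjacent. -/
theorem adj_of_nb {f : F} {b c : Bool} (h : X.nb f b ≠ X.nb f c) :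
    X.graph.Adj (X.nb f b) (X.nb f c) := by
  cases b <;> cases c
  · exact absurd rfl h
  · exact ⟨X.rot (X.rot f), rfl, Or.inr (by rw [X.rot3]; rfl)⟩
  · exact ⟨X.rot f, rfl, Or.inl rfl⟩
  · exact absurd rfl h

open Classical in
/-- **The graph is `2p`-regular.** -/
theorem degree [Fintype F] [Fintype P] {p : ℕ} (x : P)
    (hp : (univ.filter fun f => X.pt f = x).card = p) :
    (univ.filter fun y => X.graph.Adj x y).card = 2 * p := by
  have h1 : ((univ.filter fun f => X.pt f = x) ×ˢ (univ : Finset Bool)).card = p * 2 := by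
    rw [card_product, hp]
    rfl
  rw [mul_comm, ← h1]
  symm
  apply Finset.card_bij (fun q _ => X.nb q.1 q.2)
  · rintro ⟨f, b⟩ hq
    rw [mem_product, mem_filter] at hq
    exact mem_filter.2 ⟨mem_univ _, (X.adj_iff _ _).2 ⟨f, b, hq.1.2, rfl⟩⟩
  · rintro ⟨f, b⟩ hq ⟨g, c⟩ hq' e
    rw [mem_product, mem_filter] at hq hq'
    obtain ⟨e1, e2⟩ := X.nb_inj (hq.1.2.trans hq'.1.2.symm) e
    exact Prod.ext e1 e2
  · intro y hy
    rw [mem_filter, X.adj_iff] at hy
    obtain ⟨f, b, h2, h3⟩ := hy.2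
    exact ⟨(f, b), mem_product.2 ⟨mem_filter.2 ⟨mem_univ _, h2⟩, mem_univ _⟩, h3⟩

/-- **No induced star with `p + 1` leaves.** -/
theorem star_free [Fintype F] [DecidableEq P] {p : ℕ}
    (hp : ∀ x, (univ.filter fun f => X.pt f = x).card ≤ p) :
    IsEmpty (completeBipartiteGraph (Fin 1) (Fin (p + 1)) ↪g X.graph) := by
  classical
  constructor
  intro φ
  have hadj : ∀ i : Fin (p + 1), X.graph.Adj (φ (Sum.inl 0)) (φ (Sum.inr i)) := by
    intro i
    rw [φ.map_adj_iff]
    simp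
  have h1 : ∀ i : Fin (p + 1), ∃ f b, X.pt f = φ (Sum.inl 0) ∧ X.nb f b = φ (Sum.inr i) :=
    fun i => (X.adj_iff _ _).1 (hadj i)
  choose f b h2 h3 using h1
  have hmaps : ∀ i ∈ (univ : Finset (Fin (p + 1))), f i ∈ univ.filter fun g =>
      X.pt g = φ (Sum.inl 0) := fun i _ => mem_filter.2 ⟨mem_univ _, h2 i⟩
  obtain ⟨i, _, j, _, hij, hf⟩ := Finset.exists_ne_map_eq_of_card_lt_of_maps_to (by
    rw [card_univ, Fintype.card_fin]
    exact Nat.lt_succ_of_le (hp _)) hmaps
  have hne : φ (Sum.inr i) ≠ φ (Sum.inr j) := fun h => hij (by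
    have := φ.injective h
    simpa using this)
  have h4 : X.graph.Adj (φ (Sum.inr i)) (φ (Sum.inr j)) := by
    rw [← h3 i, ← h3 j, ← hf]
    apply X.adj_of_nb
    rw [h3 i, hf, h3 j]
    exact hne
  rw [φ.map_adj_iff] at h4
  simp at h4

end Flags

/-! ### Labellings -/

/-- A labelling of the flags by triples of colours. -/
structure Labelling {F P : Type} (X : Flags F P) (C : Type) where
  /-- the first entry: the colour of the point -/
  l1 : F → C
  /-- the second entry: the colour of the point's many neighbours -/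
  l2 : F → C
  /-- the third entry: the other colour of the line -/
  l3 : F → C
  h12 : ∀ f, l1 f ≠ l2 f
  h13 : ∀ f, l1 f ≠ l3 f
  h23 : ∀ f, l2 f ≠ l3 f
  same1 : ∀ f g, X.pt f = X.pt g → l1 f = l1 g
  same2 : ∀ f g, X.pt f = X.pt g → l2 f = l2 g
  third : ∀ f g, X.pt f = X.pt g → l3 f = l3 g → f = g
  line : ∀ f,
    (l1 (X.rot f) = l2 f ∧ l2 (X.rot f) = l3 f ∧ l3 (X.rot f) = l1 f ∧
      l1 (X.rot (X.rot f)) = l3 f ∧ l2 (X.rot (X.rot f)) = l1 f ∧ l3 (X.rot (X.rot f)) = l2 f) ∨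
    (l1 (X.rot f) = l3 f ∧ l2 (X.rot f) = l1 f ∧ l3 (X.rot f) = l2 f ∧
      l1 (X.rot (X.rot f)) = l2 f ∧ l2 (X.rot (X.rot f)) = l3 f ∧ l3 (X.rot (X.rot f)) = l1 f)

open Classical in
/-- **A star colouring gives a labelling.** -/
theorem labelling_of_star {F P : Type} [Fintype F] [Fintype P] (X : Flags F P) {p : ℕ} (hp : 2 ≤ p)
    (hc : ∀ x, (univ.filter fun f => X.pt f = x).card = p) {f : P → Fin (p + 2)}
    (hf : StarColouring X.graph f) : Nonempty (Labelling X (Fin (p + 2))) := by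
  obtain ⟨j, hj1, hj2, hj3⟩ := structure_of_star X.graph f hp (fun v => X.degree v (hc v)) hf
  have hprop := hf.1
  have a1 : ∀ g, X.graph.Adj (X.pt g) (X.pt (X.rot g)) := fun g => ⟨g, rfl, Or.inl rfl⟩
  have a2 : ∀ g, X.graph.Adj (X.pt g) (X.pt (X.rot (X.rot g))) := fun g => ⟨g, rfl, Or.inr rfl⟩
  have a3 : ∀ g, X.graph.Adj (X.pt (X.rot g)) (X.pt (X.rot (X.rot g))) := fun g => a1 _
  -- cyclic structure
  have hcyc : ∀ g, (j (X.pt g) = f (X.pt (X.rot g)) ∧ j (X.pt (X.rot g)) =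
      f (X.pt (X.rot (X.rot g))) ∧ j (X.pt (X.rot (X.rot g))) = f (X.pt g)) ∨
      (j (X.pt g) = f (X.pt (X.rot (X.rot g))) ∧ j (X.pt (X.rot g)) = f (X.pt g) ∧
        j (X.pt (X.rot (X.rot g))) = f (X.pt (X.rot g))) := by
    intro g
    have b1 := hj2 _ _ (a1 g)
    have b2 := hj2 _ _ (a2 g)
    have b3 := hj2 _ _ (a3 g)
    have c1 := hprop _ _ (a1 g)
    have c2 := hprop _ _ (a2 g)
    have c3 := hprop _ _ (a3 g)
    rcases b1 with b1 | b1
    · rcases b3 with b3 | b3
      · rcases b2 with b2 | b2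
        · exact absurd (b2.trans b3.symm) c1
        · exact Or.inr ⟨b2.symm, b1.symm, b3.symm⟩
      · exact absurd (b1.trans b3.symm) c2
    · rcases b2 with b2 | b2
      · rcases b3 with b3 | b3
        · exact absurd (b2.trans b3.symm) c1
        · exact Or.inl ⟨b1.symm, b3.symm, b2.symm⟩
      · exact absurd (b1.trans b2.symm) c3
  let t : F → Fin (p + 2) := fun g => if j (X.pt g) = f (X.pt (X.rot g)) then
    f (X.pt (X.rot (X.rot g))) else f (X.pt (X.rot g))
  have tp : ∀ g, j (X.pt g) = f (X.pt (X.rot g)) → t g = f (X.pt (X.rot (X.rot g))) :=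
    fun g h => if_pos h
  have tn : ∀ g, j (X.pt g) = f (X.pt (X.rot (X.rot g))) → t g = f (X.pt (X.rot g)) :=
    fun g h => if_neg fun h' => hprop _ _ (a3 g) (h'.symm.trans h)
  have tadj : ∀ g, ∃ b, t g = f (X.nb g b) := by
    intro g
    by_cases h : j (X.pt g) = f (X.pt (X.rot g))
    · exact ⟨false, tp g h⟩
    · exact ⟨true, if_neg h⟩
  have t1 : ∀ g, f (X.pt g) ≠ t g := by
    intro g
    obtain ⟨b, hb⟩ := tadj g
    rw [hb]
    exact hprop _ _ ((X.adj_iff _ _).2 ⟨g, b, rfl, rfl⟩)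
  have t2 : ∀ g, j (X.pt g) ≠ t g := by
    intro g h
    rcases hcyc g with ⟨h1, h2, h3⟩ | ⟨h1, h2, h3⟩
    · rw [tp g h1, h1] at h
      exact hprop _ _ (a3 g) h
    · rw [tn g h1, h1] at h
      exact hprop _ _ (a3 g) h.symm
  refine ⟨⟨fun g => f (X.pt g), fun g => j (X.pt g), t, fun g => (hj1 _).symm, t1, t2,
    fun g g' h => by rw [h], fun g g' h => by rw [h], ?_, ?_⟩⟩
  · intro g g' h e
    obtain ⟨b, hb⟩ := tadj g
    obtain ⟨b', hb'⟩ := tadj g'
    have h1 : X.graph.Adj (X.pt g) (X.nb g b) := (X.adj_iff _ _).2 ⟨g, b, rfl, rfl⟩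
    have h2 : X.graph.Adj (X.pt g) (X.nb g' b') := (X.adj_iff _ _).2 ⟨g', b', h.symm, rfl⟩
    have h3 : f (X.nb g b) = f (X.nb g' b') := by rw [← hb, ← hb', e]
    have h4 : f (X.nb g b) ≠ j (X.pt g) := by
      rw [← hb]
      exact (t2 g).symm
    exact (X.nb_inj h (hj3 _ _ _ h1 h2 h3 h4)).1
  · intro g
    rcases hcyc g with ⟨h1, h2, h3⟩ | ⟨h1, h2, h3⟩
    · left
      refine ⟨h1.symm, ?_, ?_, ?_, ?_, ?_⟩
      · rw [tp g h1]; exact h2
      · rw [tp (X.rot g) h2, X.rot3]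
      · exact (tp g h1).symm
      · exact h3
      · have := tp (X.rot (X.rot g)) (by rw [X.rot3]; exact h3)
        rw [X.rot3] at this
        rw [this, h1]
    · right
      refine ⟨(tn g h1).symm, h2, ?_, h1.symm, ?_, ?_⟩
      · have := tn (X.rot g) (by rw [X.rot3]; exact h2)
        rw [this, h1]
      · rw [tn g h1]; exact h3
      · have := tn (X.rot (X.rot g)) (by rw [X.rot3]; exact h3)
        rw [X.rot3] at this
        exact this

/-- **A labelling all of whose lines are positive gives a star colouring.** -/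
theorem star_of_labelling {F P : Type} (X : Flags F P) {k : ℕ} (l1 l2 l3 : F → Fin k)
    (h12 : ∀ f, l1 f ≠ l2 f) (h13 : ∀ f, l1 f ≠ l3 f) (h23 : ∀ f, l2 f ≠ l3 f)
    (col j : P → Fin k) (hcol : ∀ f, col (X.pt f) = l1 f) (hj : ∀ f, j (X.pt f) = l2 f)
    (third : ∀ f g, X.pt f = X.pt g → l3 f = l3 g → f = g)
    (line : ∀ f, l1 (X.rot f) = l2 f ∧ l2 (X.rot f) = l3 f ∧ l3 (X.rot f) = l1 f) :
    StarColouring X.graph col := by
  rw [star_iff]
  -- the neighbours of a flag
  have hT : ∀ f, col (X.pt (X.rot f)) = j (X.pt f) := fun f => by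
    rw [hcol, hj]; exact (line f).1
  have hF : ∀ f, col (X.pt (X.rot (X.rot f))) = l3 f := fun f => by
    rw [hcol, (line (X.rot f)).1, (line f).2.1]
  have hjT : ∀ f, j (X.pt (X.rot f)) = l3 f := fun f => by rw [hj, (line f).2.1]
  have hjF : ∀ f, j (X.pt (X.rot (X.rot f))) = l1 f := fun f => by
    rw [hj, (line (X.rot f)).2.1, (line f).2.2]
  have hU : ∀ x y y', X.graph.Adj x y → X.graph.Adj x y' → col y = col y' → col y ≠ j x →
      y = y' := by
    rintro x y y' ⟨f, rfl, rfl | rfl⟩ ⟨g, hg, rfl | rfl⟩ e hne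
    · exact absurd (hT f) hne
    · exact absurd (hT f) hne
    · exact absurd (e.trans ((hT g).trans (by rw [hg]))) hne
    · rw [hF, hF] at e
      rw [third f g hg.symm e]
  have hE : ∀ x y, X.graph.Adj x y → (col y = j x ∧ col x ≠ j y) ∨ (col x = j y ∧ col y ≠ j x) := by
    rintro x y ⟨f, rfl, rfl | rfl⟩
    · left
      exact ⟨hT f, by rw [hcol, hjT]; exact h13 f⟩
    · right
      exact ⟨by rw [hcol, hjF], by rw [hF, hj]; exact (h23 f).symm⟩
  refine ⟨?_, ?_⟩
  · rintro x y ⟨f, rfl, rfl | rfl⟩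
    · rw [hT, hcol, hj]
      exact h12 f
    · rw [hF, hcol]
      exact h13 f
  · intro a b c d hab hbc hcd hac hbd e1 e2
    rcases hE b c hbc with ⟨h1, h2⟩ | ⟨h1, h2⟩
    · -- at `c`
      exact hbd (hU c b d hbc.symm hcd e2 h2)
    · exact hac (hU b a c hab.symm hbc e1 (by rw [e1]; exact h2))

end Pool.Agent.NPC.R542.SR
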