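import Mathlib

/-!
# The system of flags of an instance of graph colouring
-/

set_option autoImplicit false

namespace Pool.Agent.NPC.R542.SR

/-- Flags: a copy `(v, t, s)` and three different elements `(a, b, c)`: the point `(a, b)` on the
line `abc`. -/
abbrev FlagN := (ℕ × ℕ × ℕ) × (ℕ × ℕ × ℕ)

/-- Points: a copy and an ordered pair of different elements. -/
abbrev PointN := (ℕ × ℕ × ℕ) × (ℕ × ℕ)

/-- first end of an edge -/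
def eU (E : List (ℕ × ℕ)) (t : ℕ) : ℕ := (E.getD t (0, 0)).1

/-- second end of an edge -/
def eW (E : List (ℕ × ℕ)) (t : ℕ) : ℕ := (E.getD t (0, 0)).2

/-- cyclic successor -/
def nxt (m t : ℕ) : ℕ := if t + 1 = m then 0 else t + 1

/-- cyclic predecessor -/
def prv (m t : ℕ) : ℕ := if t = 0 then m - 1 else t - 1

/-- the permutation of the flags -/
def sg (E : List (ℕ × ℕ)) (f : FlagN) : FlagN :=
  if f.1.2.2 = 0 ∧ f.2 = (0, 1, 2) then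
    (if f.1.1 = eU E f.1.2.1 then ((f.1.1, f.1.2.1, 2), (0, 1, 2))
     else if f.1.1 = eW E f.1.2.1 then ((eU E f.1.2.1, f.1.2.1, 2), (0, 1, 3))
     else ((f.1.1, f.1.2.1, 1), (1, 0, 2)))
  else if f.1.2.2 = 0 ∧ f.2 = (1, 0, 2) then ((f.1.1, f.1.2.1, 1), (0, 1, 2))
  else if f.1.2.2 = 1 ∧ f.2 = (0, 1, 2) then ((f.1.1, f.1.2.1, 0), (1, 0, 2))
  else if f.1.2.2 = 1 ∧ f.2 = (1, 0, 2) then ((f.1.1, nxt E.length f.1.2.1, 0), (0, 1, 2))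
  else if f.1.2.2 = 2 ∧ f.1.1 = eU E f.1.2.1 ∧ f.2 = (0, 1, 2) then
    ((f.1.1, f.1.2.1, 1), (1, 0, 2))
  else if f.1.2.2 = 2 ∧ f.1.1 = eU E f.1.2.1 ∧ f.2 = (0, 1, 3) then
    ((eW E f.1.2.1, f.1.2.1, 1), (1, 0, 2))
  else f

/-- its inverse -/
def sgi (E : List (ℕ × ℕ)) (f : FlagN) : FlagN :=
  if f.1.2.2 = 1 ∧ f.2 = (1, 0, 2) then
    (if f.1.1 = eU E f.1.2.1 then ((f.1.1, f.1.2.1, 2), (0, 1, 2))
     else if f.1.1 = eW E f.1.2.1 then ((eU E f.1.2.1, f.1.2.1, 2), (0, 1, 3))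
     else ((f.1.1, f.1.2.1, 0), (0, 1, 2)))
  else if f.1.2.2 = 1 ∧ f.2 = (0, 1, 2) then ((f.1.1, f.1.2.1, 0), (1, 0, 2))
  else if f.1.2.2 = 0 ∧ f.2 = (1, 0, 2) then ((f.1.1, f.1.2.1, 1), (0, 1, 2))
  else if f.1.2.2 = 0 ∧ f.2 = (0, 1, 2) then ((f.1.1, prv E.length f.1.2.1, 1), (1, 0, 2))
  else if f.1.2.2 = 2 ∧ f.1.1 = eU E f.1.2.1 ∧ f.2 = (0, 1, 2) then
    ((f.1.1, f.1.2.1, 0), (0, 1, 2))
  else if f.1.2.2 = 2 ∧ f.1.1 = eU E f.1.2.1 ∧ f.2 = (0, 1, 3) then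
    ((eW E f.1.2.1, f.1.2.1, 0), (0, 1, 2))
  else f

/-- the cut flags -/
def Cut (E : List (ℕ × ℕ)) (f : FlagN) : Prop :=
  (f.1.2.2 = 0 ∧ f.2 = (0, 1, 2)) ∨ (f.1.2.2 = 0 ∧ f.2 = (1, 0, 2)) ∨
  (f.1.2.2 = 1 ∧ f.2 = (0, 1, 2)) ∨ (f.1.2.2 = 1 ∧ f.2 = (1, 0, 2)) ∨
  (f.1.2.2 = 2 ∧ f.1.1 = eU E f.1.2.1 ∧ f.2 = (0, 1, 2)) ∨
  (f.1.2.2 = 2 ∧ f.1.1 = eU E f.1.2.1 ∧ f.2 = (0, 1, 3))

/-- the flags of the instance -/
def VF (k : ℕ) (E : List (ℕ × ℕ)) (f : FlagN) : Prop :=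
  f.1.1 < 2 * E.length ∧ f.1.2.1 < E.length ∧ f.1.2.2 < 3 ∧ f.2.1 < k ∧ f.2.2.1 < k ∧
    f.2.2.2 < k ∧ f.2.1 ≠ f.2.2.1 ∧ f.2.1 ≠ f.2.2.2 ∧ f.2.2.1 ≠ f.2.2.2

/-- the points of the instance -/
def VP (k : ℕ) (E : List (ℕ × ℕ)) (x : PointN) : Prop :=
  x.1.1 < 2 * E.length ∧ x.1.2.1 < E.length ∧ x.1.2.2 < 3 ∧ x.2.1 < k ∧ x.2.2 < k ∧ x.2.1 ≠ x.2.2

/-- rotation -/
def rt (f : FlagN) : FlagN := (f.1, (f.2.2.1, f.2.2.2, f.2.1))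

/-- the point of a flag inside its copy -/
def bs (f : FlagN) : PointN := (f.1, (f.2.1, f.2.2.1))

/-- the point of a flag -/
def pn (E : List (ℕ × ℕ)) (f : FlagN) : PointN := bs (sg E f)

/-- admissible instances -/
def OKE (E : List (ℕ × ℕ)) : Prop :=
  ∀ t, t < E.length → eU E t < 2 * E.length ∧ eW E t < 2 * E.length ∧ eU E t ≠ eW E t

variable {k : ℕ} {E : List (ℕ × ℕ)}

theorem sg_of_not_cut {f : FlagN} (h : ¬ Cut E f) : sg E f = f := by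
  unfold Cut at h
  push Not at h
  obtain ⟨h1, h2, h3, h4, h5, h6⟩ := h
  unfold sg
  rw [if_neg (fun e => h1 e.1 e.2), if_neg (fun e => h2 e.1 e.2), if_neg (fun e => h3 e.1 e.2),
    if_neg (fun e => h4 e.1 e.2), if_neg (fun e => h5 e.1 e.2.1 e.2.2),
    if_neg (fun e => h6 e.1 e.2.1 e.2.2)]

theorem sg_valid (hk : 5 ≤ k) (hE : OKE E) {f : FlagN} (hf : VF k E f) : VF k E (sg E f) := by
  obtain ⟨⟨v, t, s⟩, a, b, c⟩ := f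
  obtain ⟨h1, h2, h3, h4, h5, h6, h7, h8, h9⟩ := hf
  simp only at h1 h2 h3 h4 h5 h6 h7 h8 h9
  obtain ⟨g1, g2, g3⟩ := hE t h2
  unfold sg
  split_ifs <;> simp only [VF] <;> (try unfold nxt) <;> (try split_ifs) <;>
    refine ⟨?_, ?_, ?_, ?_, ?_, ?_, ?_, ?_, ?_⟩ <;> omega

theorem sgi_sg (hE : OKE E) {f : FlagN} (hf : VF k E f) : sgi E (sg E f) = f := by
  obtain ⟨⟨v, t, s⟩, a, b, c⟩ := f
  obtain ⟨h1, h2, h3, h4, h5, h6, h7, h8, h9⟩ := hf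
  simp only at h1 h2 h3 h4 h5 h6 h7 h8 h9
  obtain ⟨g1, g2, g3⟩ := hE t h2
  have hprv : prv E.length (nxt E.length t) = t := by
    by_cases h : t + 1 = E.length
    · have e : nxt E.length t = 0 := if_pos h
      rw [e]
      change E.length - 1 = t
      omega
    · have e : nxt E.length t = t + 1 := if_neg h
      rw [e]
      rfl
  by_cases c1 : s = 0 ∧ (a, b, c) = (0, 1, 2)
  · obtain ⟨rfl, e⟩ := c1
    rw [e]
    by_cases d1 : v = eU E t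
    · simp [sg, sgi, d1]
    · by_cases d2 : v = eW E t
      · simp [sg, sgi, d2, g3.symm]
      · simp [sg, sgi, d1, d2]
  by_cases c2 : s = 0 ∧ (a, b, c) = (1, 0, 2)
  · obtain ⟨rfl, e⟩ := c2
    rw [e]
    simp [sg, sgi]
  by_cases c3 : s = 1 ∧ (a, b, c) = (0, 1, 2)
  · obtain ⟨rfl, e⟩ := c3
    rw [e]
    simp [sg, sgi]
  by_cases c4 : s = 1 ∧ (a, b, c) = (1, 0, 2)
  · obtain ⟨rfl, e⟩ := c4
    rw [e]
    simp [sg, sgi, hprv]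
  by_cases c5 : s = 2 ∧ v = eU E t ∧ (a, b, c) = (0, 1, 2)
  · obtain ⟨rfl, rfl, e⟩ := c5
    rw [e]
    simp [sg, sgi]
  by_cases c6 : s = 2 ∧ v = eU E t ∧ (a, b, c) = (0, 1, 3)
  · obtain ⟨rfl, rfl, e⟩ := c6
    rw [e]
    simp [sg, sgi, g3.symm]
  have hsg : sg E ((v, t, s), a, b, c) = ((v, t, s), a, b, c) := by
    unfold sg
    rw [if_neg c1, if_neg c2, if_neg c3, if_neg c4, if_neg c5, if_neg c6]
  rw [hsg]
  unfold sgi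
  rw [if_neg c4, if_neg c3, if_neg c2, if_neg c1, if_neg c5, if_neg c6]

theorem sg_inj (hE : OKE E) {f g : FlagN} (hf : VF k E f) (hg : VF k E g) (h : sg E f = sg E g) :
    f = g := by
  rw [← sgi_sg hE hf, ← sgi_sg hE hg, h]

/-- The point of a cut flag is in a copy of another kind, and its elements are `0` and `1`. -/
theorem cut_copy {f : FlagN} (hc : Cut E f) :
    (pn E f).1.2.2 ≠ f.1.2.2 ∧ (pn E f).2.1 < 2 ∧ (pn E f).2.2 < 2 := by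
  obtain ⟨⟨v, t, s⟩, τ⟩ := f
  unfold Cut at hc
  simp only at hc
  rcases hc with ⟨rfl, rfl⟩ | ⟨rfl, rfl⟩ | ⟨rfl, rfl⟩ | ⟨rfl, rfl⟩ | ⟨rfl, rfl, rfl⟩ |
    ⟨rfl, rfl, rfl⟩
  · unfold pn sg
    rw [if_pos ⟨rfl, rfl⟩]
    split_ifs <;> simp [bs]
  · simp [pn, sg, bs]
  · simp [pn, sg, bs]
  · simp [pn, sg, bs]
  · simp [pn, sg, bs]
  · simp [pn, sg, bs]

/-- The other flags on the line of a cut flag. -/
theorem cut_rt {f : FlagN} (hc : Cut E f) : ¬ Cut E (rt f) ∧ ¬ Cut E (rt (rt f)) ∧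
    2 ≤ (bs (rt f)).2.2 ∧ 2 ≤ (bs (rt (rt f))).2.1 := by
  obtain ⟨⟨v, t, s⟩, τ⟩ := f
  unfold Cut at hc
  simp only at hc
  rcases hc with ⟨rfl, rfl⟩ | ⟨rfl, rfl⟩ | ⟨rfl, rfl⟩ | ⟨rfl, rfl⟩ | ⟨rfl, rfl, rfl⟩ |
    ⟨rfl, rfl, rfl⟩ <;> simp [Cut, rt, bs]

/-- Two cut flags of the same copy have different points. -/
theorem cut_pt (hE : OKE E) {f g : FlagN} (hf : VF k E f) (hg : VF k E g) (cf : Cut E f)
    (cg : Cut E g) (h : f.1 = g.1) (hp : pn E f = pn E g) : f = g := by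
  obtain ⟨⟨v, t, s⟩, τ⟩ := f
  obtain ⟨⟨v', t', s'⟩, τ'⟩ := g
  have h2 : t < E.length := hf.2.1
  obtain ⟨g1, g2, g3⟩ := hE t h2
  simp only [Prod.mk.injEq] at h
  obtain ⟨rfl, rfl, rfl⟩ := h
  unfold Cut at cf cg
  simp only at cf cg
  rcases cf with ⟨hs, rfl⟩ | ⟨hs, rfl⟩ | ⟨hs, rfl⟩ | ⟨hs, rfl⟩ | ⟨hs, hv, rfl⟩ | ⟨hs, hv, rfl⟩ <;>
    rcases cg with ⟨hs', rfl⟩ | ⟨hs', rfl⟩ | ⟨hs', rfl⟩ | ⟨hs', rfl⟩ | ⟨hs', hv', rfl⟩ |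
      ⟨hs', hv', rfl⟩
  all_goals first
    | rfl
    | (exfalso; omega)
    | skip
  all_goals exfalso
  all_goals subst hs
  all_goals try subst hv
  all_goals revert hp
  all_goals simp only [pn, sg, bs]
  all_goals simp
  all_goals try (split_ifs <;> simp)
  all_goals try omega

end Pool.Agent.NPC.R542.SR
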