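import Pool.Agent.R542.SR.Red
import Pool.Agent.R542.GI.Dec

/-!
# Star colourability is in NP
-/

set_option autoImplicit false

namespace Pool.Agent.NPC.R542.SR

open SimpleGraph Pool.Agent.H692R2 Pool.Agent.H673R2 Pool.Agent.NPC.R542.GI

/-- the colour in a certificate -/
def cw (k : ℕ) (w : List ℕ) (u : ℕ) : ℕ := w.getD u 0 % k

/-- the test of a path -/
noncomputable def bad (k : ℕ) (G : FinGraph) (w : List ℕ) (a b c d : ℕ) : Bool :=
  adjB G b c && (adjB G c d && (!decide (a = c) && (!decide (b = d) &&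
    (decide (cw k w a = cw k w c) && decide (cw k w b = cw k w d)))))

/-- the verifier -/
noncomputable def chk (k : ℕ) (q : FinGraph × List ℕ) : Bool :=
  (List.range q.1.n).all fun a => (List.range q.1.n).all fun b =>
    !(adjB q.1 a b) || (!decide (cw k q.2 a = cw k q.2 b) &&
      (List.range q.1.n).all fun c => (List.range q.1.n).all fun d => !(bad k q.1 q.2 a b c d))

theorem poly_cw (k : ℕ) {α : Type} [TEnc α] {w : α → List ℕ} {u : α → ℕ} (hw : Poly w)
    (hu : Poly u) : Poly (fun a => cw k (w a) (u a)) :=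
  Poly.mod (Poly.getD hw hu (Poly.const 0)) (Poly.const k)

theorem poly_chk (k : ℕ) : Poly (chk k) := by
  have hn : UPoly (fun q : FinGraph × List ℕ => q.1.n) := upoly_n (Poly.fst Poly.id)
  refine Poly.all (l := fun q : FinGraph × List ℕ => List.range q.1.n) (UPoly.range hn) ?_
  refine Poly.all (l := fun x : (FinGraph × List ℕ) × ℕ => List.range x.1.1.n)
    (UPoly.range (hn.comp (Poly.fst Poly.id))) ?_
  have g2 : Poly (fun x : ((FinGraph × List ℕ) × ℕ) × ℕ => x.1.1.1) :=
    Poly.fst (Poly.fst (Poly.fst Poly.id))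
  have w2 : Poly (fun x : ((FinGraph × List ℕ) × ℕ) × ℕ => x.1.1.2) :=
    Poly.snd (Poly.fst (Poly.fst Poly.id))
  have a2 : Poly (fun x : ((FinGraph × List ℕ) × ℕ) × ℕ => x.1.2) := Poly.snd (Poly.fst Poly.id)
  have b2 : Poly (fun x : ((FinGraph × List ℕ) × ℕ) × ℕ => x.2) := Poly.snd Poly.id
  refine Poly.or (Poly.not (poly_adjB g2 a2 b2)) (Poly.and (Poly.not (Poly.decide_eq
    (poly_cw k w2 a2) (poly_cw k w2 b2))) ?_)
  refine Poly.all (l := fun x : ((FinGraph × List ℕ) × ℕ) × ℕ => List.range x.1.1.1.n)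
    (UPoly.range (hn.comp (Poly.fst (Poly.fst Poly.id)))) ?_
  refine Poly.all (l := fun x : (((FinGraph × List ℕ) × ℕ) × ℕ) × ℕ => List.range x.1.1.1.1.n)
    (UPoly.range (hn.comp (Poly.fst (Poly.fst (Poly.fst Poly.id))))) ?_
  have g4 : Poly (fun x : ((((FinGraph × List ℕ) × ℕ) × ℕ) × ℕ) × ℕ => x.1.1.1.1.1) :=
    g2.comp (Poly.fst (Poly.fst Poly.id))
  have w4 : Poly (fun x : ((((FinGraph × List ℕ) × ℕ) × ℕ) × ℕ) × ℕ => x.1.1.1.1.2) :=
    w2.comp (Poly.fst (Poly.fst Poly.id))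
  have a4 : Poly (fun x : ((((FinGraph × List ℕ) × ℕ) × ℕ) × ℕ) × ℕ => x.1.1.1.2) :=
    a2.comp (Poly.fst (Poly.fst Poly.id))
  have b4 : Poly (fun x : ((((FinGraph × List ℕ) × ℕ) × ℕ) × ℕ) × ℕ => x.1.1.2) :=
    b2.comp (Poly.fst (Poly.fst Poly.id))
  have c4 : Poly (fun x : ((((FinGraph × List ℕ) × ℕ) × ℕ) × ℕ) × ℕ => x.1.2) :=
    Poly.snd (Poly.fst Poly.id)
  have d4 : Poly (fun x : ((((FinGraph × List ℕ) × ℕ) × ℕ) × ℕ) × ℕ => x.2) := Poly.snd Poly.id
  exact Poly.not (Poly.and (poly_adjB g4 b4 c4) (Poly.and (poly_adjB g4 c4 d4)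
    (Poly.and (Poly.not (Poly.decide_eq a4 c4)) (Poly.and (Poly.not (Poly.decide_eq b4 d4))
      (Poly.and (Poly.decide_eq (poly_cw k w4 a4) (poly_cw k w4 c4))
        (Poly.decide_eq (poly_cw k w4 b4) (poly_cw k w4 d4)))))))

theorem chk_iff (k : ℕ) (hk : 0 < k) (G : FinGraph) (w : List ℕ) : chk k (G, w) = true ↔
    StarColouring G.graph (fun i : Fin G.n => (⟨cw k w i, Nat.mod_lt _ hk⟩ : Fin k)) := by
  rw [star_iff]
  unfold chk
  simp only [List.all_eq_true, List.mem_range, Bool.or_eq_true, Bool.and_eq_true,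
    Bool.not_eq_true', decide_eq_false_iff_not, ne_eq, Fin.mk.injEq]
  constructor
  · intro h
    constructor
    · intro u v huv
      rcases h u u.2 v v.2 with h1 | h1
      · rw [(adjB_iff G u v).2 huv] at h1
        exact absurd h1 (by decide)
      · exact h1.1
    · intro a b c d hab hbc hcd hac hbd e1 e2
      rcases h a a.2 b b.2 with h1 | h1
      · rw [(adjB_iff G a b).2 hab] at h1
        exact absurd h1 (by decide)
      · have h2 := h1.2 c c.2 d d.2
        unfold bad at h2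
        rw [(adjB_iff G b c).2 hbc, (adjB_iff G c d).2 hcd] at h2
        have h3 : ¬ (a : ℕ) = c := fun e => hac (Fin.ext e)
        have h4 : ¬ (b : ℕ) = d := fun e => hbd (Fin.ext e)
        simp [h3, h4, e1, e2] at h2
  · rintro ⟨h1, h2⟩ a ha b hb
    by_cases hab : adjB G a b = true
    · right
      have hab' := (adjB_iff G ⟨a, ha⟩ ⟨b, hb⟩).1 hab
      refine ⟨h1 _ _ hab', fun c hc d hd => ?_⟩
      by_contra hbad
      rw [Bool.not_eq_false] at hbad
      unfold bad at hbad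
      simp only [Bool.and_eq_true, Bool.not_eq_true', decide_eq_false_iff_not,
        decide_eq_true_eq] at hbad
      obtain ⟨k1, k2, k3, k4, k5, k6⟩ := hbad
      exact h2 ⟨a, ha⟩ ⟨b, hb⟩ ⟨c, hc⟩ ⟨d, hd⟩ hab' ((adjB_iff G ⟨b, hb⟩ ⟨c, hc⟩).1 k1)
        ((adjB_iff G ⟨c, hc⟩ ⟨d, hd⟩).1 k2) (fun e => k3 (congrArg Fin.val e))
        (fun e => k4 (congrArg Fin.val e)) k5 k6
    · left
      simpa using hab

theorem inNP (k : ℕ) (hk : 0 < k) : InNPP (StarColourable k) := by
  let B : ℕ := ∑ i ∈ Finset.range k, sz i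
  refine inNPP_of (poly_chk k) (Polynomial.X * Polynomial.C (B + 1) + 1) fun G => ?_
  constructor
  · rintro ⟨f, hf⟩
    refine ⟨List.ofFn fun i => (f i : ℕ), ?_, ?_⟩
    · have h1 : ∀ a ∈ List.ofFn (fun i => (f i : ℕ)), sz a ≤ B := by
        intro a ha
        rw [List.mem_ofFn] at ha
        obtain ⟨i, rfl⟩ := ha
        exact Finset.single_le_sum (f := fun i => sz i) (fun _ _ => Nat.zero_le _)
          (Finset.mem_range.2 (f i).2)
      have h2 := sz_le_length_mul _ B h1
      have h3 : G.n ≤ sz G := by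
        have h4 := length_lt_sz G.matrix
        rw [matrix_length] at h4
        exact h4.le
      rw [List.length_ofFn] at h2
      simp only [Polynomial.eval_add, Polynomial.eval_mul, Polynomial.eval_X, Polynomial.eval_C,
        Polynomial.eval_one]
      exact h2.trans (Nat.add_le_add_right (Nat.mul_le_mul_right _ h3) 1)
    · rw [chk_iff k hk]
      convert hf using 2 with i
      apply Fin.ext
      change cw k (List.ofFn fun i => (f i : ℕ)) i = f i
      unfold cw
      rw [List.getD_eq_getElem _ _ (by rw [List.length_ofFn]; exact i.2), List.getElem_ofFn,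
        Nat.mod_eq_of_lt (f _).2]
  · rintro ⟨w, _, hw⟩
    exact ⟨_, (chk_iff k hk G w).1 hw⟩

end Pool.Agent.NPC.R542.SR
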