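import Pool.Agent.R542.SR.Correct
import Pool.Agent.R542.SR.Back
import Pool.Agent.R542.CayMain

/-!
# The reduction from `p`-colourability, and its computation
-/

set_option autoImplicit false

namespace Pool.Agent.NPC.R542.SR

open SimpleGraph Pool.Agent.H692R2 Pool.Agent.H673R2 Pool.Agent.NPC.R542.Cay

/-! ### Isomorphic graphs -/

theorem StarColouring.comap {V W : Type} {G : SimpleGraph V} {H : SimpleGraph W} {k : ℕ}
    {f : W → Fin k} (e : G ↪g H) (h : StarColouring H f) : StarColouring G (fun v => f (e v)) := by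
  obtain ⟨h1, h2⟩ := h
  refine ⟨fun u v huv => h1 _ _ (e.map_adj_iff.2 huv), ?_⟩
  intro a b c d hab hac had hbc hbd hcd g1 g2 g3
  have inj : ∀ {x y : V}, x ≠ y → e x ≠ e y := fun h h' => h (e.injective h')
  exact h2 _ _ _ _ (inj hab) (inj hac) (inj had) (inj hbc) (inj hbd) (inj hcd)
    (e.map_adj_iff.2 g1) (e.map_adj_iff.2 g2) (e.map_adj_iff.2 g3)

theorem star_iso {V W : Type} {G : SimpleGraph V} {H : SimpleGraph W} (e : G ≃g H) (k : ℕ) :
    (∃ f : V → Fin k, StarColouring G f) ↔ ∃ f : W → Fin k, StarColouring H f :=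
  ⟨fun ⟨_, h⟩ => ⟨_, h.comap e.symm.toEmbedding⟩, fun ⟨_, h⟩ => ⟨_, h.comap e.toEmbedding⟩⟩

/-! ### The graph -/

section
variable (k : ℕ) (E : List (ℕ × ℕ))

/-- adjacency of points -/
def adjN (x y : PointN) : Bool :=
  (flagsL k E).any fun f => decide (pn E f = x) &&
    (decide (pn E (rt f) = y) || decide (pn E (rt (rt f)) = y))

/-- a point, for every number -/
def ptN (i : ℕ) : PointN := (pointsL k E).getD i ((0, 0, 0), (0, 0))

/-- the graph of an instance -/
def gr : SimpleGraph (Fin (pointsL k E).length) where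
  Adj i j := i ≠ j ∧ (adjN k E (ptN k E i) (ptN k E j) = true ∨
    adjN k E (ptN k E j) (ptN k E i) = true)
  symm := ⟨fun _ _ h => ⟨h.1.symm, h.2.symm⟩⟩
  loopless := ⟨fun _ h => h.1 rfl⟩

end

variable {k : ℕ} {E : List (ℕ × ℕ)}

theorem adjN_iff (hk : 5 ≤ k) (hE : OKE E) (x y : PT k E) :
    adjN k E x.1 y.1 = true ↔ (sys k hk E hE).graph.Adj x y := by
  unfold adjN
  rw [List.any_eq_true]
  simp only [Bool.and_eq_true, Bool.or_eq_true, decide_eq_true_eq]
  constructor
  · rintro ⟨f, hf, h1, h2⟩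
    refine ⟨⟨f, hf⟩, Subtype.ext h1, ?_⟩
    rcases h2 with h2 | h2
    · exact Or.inl (Subtype.ext h2)
    · exact Or.inr (Subtype.ext h2)
  · rintro ⟨f, h1, h2⟩
    refine ⟨f.1, f.2, congrArg Subtype.val h1, ?_⟩
    rcases h2 with h2 | h2
    · exact Or.inl (congrArg Subtype.val h2)
    · exact Or.inr (congrArg Subtype.val h2)

/-- **The graph is the collinearity graph of the system of flags.** -/
noncomputable def iso (hk : 5 ≤ k) (hE : OKE E) : gr k E ≃g (sys k hk E hE).graph where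
  toEquiv := pointsL_nodup.getEquiv
  map_rel_iff' := by
    intro i j
    have hpt : ∀ i : Fin (pointsL k E).length, ptN k E i =
        (pointsL_nodup.getEquiv (pointsL k E) i).1 := by
      intro i
      unfold ptN
      rw [List.getD_eq_getElem _ _ i.2]
      rfl
    change (sys k hk E hE).graph.Adj _ _ ↔ i ≠ j ∧ (adjN k E (ptN k E i) (ptN k E j) = true ∨
      adjN k E (ptN k E j) (ptN k E i) = true)
    rw [hpt, hpt, adjN_iff hk hE, adjN_iff hk hE]
    constructor
    · intro h
      refine ⟨?_, Or.inl h⟩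
      rintro rfl
      exact h.ne rfl
    · rintro ⟨_, h | h⟩
      · exact h
      · exact h.symm

/-! ### Small instances -/

theorem okE_of_small (h : Small E) : OKE E := by
  intro t ht
  have h1 : E.getD t (0, 0) ∈ E := by
    rw [List.getD_eq_getElem _ _ ht]
    exact List.getElem_mem ht
  exact ⟨(h.2 _ h1).1, (h.2 _ h1).2, h.1 _ h1⟩

theorem col_iff {p : ℕ} : Col p E ↔ ∃ c : ℕ → Fin p, ∀ t, t < E.length →
    c (eU E t) ≠ c (eW E t) := by
  constructor
  · rintro ⟨c, hc⟩
    refine ⟨c, fun t ht => ?_⟩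
    have h1 : E.getD t (0, 0) ∈ E := by
      rw [List.getD_eq_getElem _ _ ht]
      exact List.getElem_mem ht
    exact hc _ h1
  · rintro ⟨c, hc⟩
    refine ⟨c, fun e he => ?_⟩
    obtain ⟨t, ht, rfl⟩ := List.mem_iff_getElem.1 he
    have := hc t ht
    unfold eU eW at this
    rwa [List.getD_eq_getElem _ _ ht] at this

theorem fibre' {p : ℕ} (hk : 5 ≤ p + 2) (hE : OKE E) (x : PT (p + 2) E) :
    (@Finset.filter _ (fun f => (sys (p + 2) hk E hE).pt f = x)
      (fun _ => Classical.propDecidable _) Finset.univ).card = p := by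
  convert fibre hk hE x

theorem correct {p : ℕ} (hp : 3 ≤ p) (hE : OKE E) :
    Col p E ↔ ∃ f : Fin (pointsL (p + 2) E).length → Fin (p + 2),
      StarColouring (gr (p + 2) E) f := by
  have hk : 5 ≤ p + 2 := by omega
  rw [col_iff, star_iso (iso hk hE)]
  constructor
  · rintro ⟨c, hc⟩
    exact star_of_col hp hk hE hc
  · rintro ⟨f, hf⟩
    obtain ⟨lab⟩ := labelling_of_star (sys (p + 2) hk E hE) (by omega) (fun x => fibre' hk hE x) hf
    exact col_of_labelling hk hE lab

theorem regular {p : ℕ} (hk : 5 ≤ p + 2) (hE : OKE E) (i : Fin (pointsL (p + 2) E).length) :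
    ((gr (p + 2) E).neighborSet i).ncard = 2 * p := by
  classical
  have h1 := (sys (p + 2) hk E hE).degree (iso hk hE i) (fibre' hk hE _)
  rw [← h1, ← Nat.card_coe_set_eq, Nat.card_congr ((iso hk hE).mapNeighborSet i),
    Nat.card_coe_set_eq, ← Set.ncard_coe_finset]
  congr 1
  ext y
  simp

theorem starFree {p : ℕ} (hk : 5 ≤ p + 2) (hE : OKE E) :
    IsEmpty (completeBipartiteGraph (Fin 1) (Fin (p + 1)) ↪g gr (p + 2) E) := by
  classical
  have h := (sys (p + 2) hk E hE).star_free (p := p) (fun x => by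
    have := fibre hk hE x
    convert this.le)
  exact ⟨fun φ => h.elim (((iso hk hE).toEmbedding).comp φ)⟩

/-! ### Computation -/

section
variable {α : Type} [TEnc α]

theorem poly_product {β γ : Type} [TEnc β] [TEnc γ] {l : α → List β} {l' : α → List γ}
    (hl : Poly l) (hl' : Poly l') : Poly (fun a => l a ×ˢ l' a) :=
  Poly.flatMap (F := fun a b => (l' a).map (fun c => (b, c))) hl
    (Poly.map (l := fun x : α × β => l' x.1) (F := fun x c => (x.2, c)) (hl'.comp (Poly.fst Poly.id))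
      (Poly.pair (Poly.snd (Poly.fst Poly.id)) (Poly.snd Poly.id)))

theorem poly_eU {E : α → List (ℕ × ℕ)} {t : α → ℕ} (hE : Poly E) (ht : Poly t) :
    Poly (fun a => eU (E a) (t a)) := Poly.fst (Poly.getD hE ht (Poly.const (0, 0)))

theorem poly_eW {E : α → List (ℕ × ℕ)} {t : α → ℕ} (hE : Poly E) (ht : Poly t) :
    Poly (fun a => eW (E a) (t a)) := Poly.snd (Poly.getD hE ht (Poly.const (0, 0)))

theorem poly_nxt {m t : α → ℕ} (hm : Poly m) (ht : Poly t) : Poly (fun a => nxt (m a) (t a)) :=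
  Poly.ite (Poly.decide_eq (Poly.succ ht) hm) (Poly.const 0) (Poly.succ ht)

theorem poly_sg {E : α → List (ℕ × ℕ)} {f : α → FlagN} (hE : Poly E) (hf : Poly f) :
    Poly (fun a => sg (E a) (f a)) := by
  have hv : Poly (fun a => (f a).1.1) := Poly.fst (Poly.fst hf)
  have ht : Poly (fun a => (f a).1.2.1) := Poly.fst (Poly.snd (Poly.fst hf))
  have hs : Poly (fun a => (f a).1.2.2) := Poly.snd (Poly.snd (Poly.fst hf))
  have hτ : Poly (fun a => (f a).2) := Poly.snd hf
  have hu := poly_eU hE ht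
  have hw := poly_eW hE ht
  have k0 : ∀ {g : α → ℕ × ℕ × ℕ} (b : ℕ × ℕ × ℕ), Poly g → Poly (fun a => (g a, b)) :=
    fun b hg => Poly.pair hg (Poly.const b)
  have cp : ∀ (s : ℕ), Poly (fun a => ((f a).1.1, (f a).1.2.1, s)) :=
    fun s => Poly.pair hv (Poly.pair ht (Poly.const s))
  have dS : ∀ s : ℕ, Poly (fun a => decide ((f a).1.2.2 = s)) :=
    fun s => Poly.decide_eq hs (Poly.const s)
  have dT : ∀ τ : ℕ × ℕ × ℕ, Poly (fun a => decide ((f a).2 = τ)) :=
    fun τ => Poly.decide_eq hτ (Poly.const τ)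
  have dU : Poly (fun a => decide ((f a).1.1 = eU (E a) (f a).1.2.1)) := Poly.decide_eq hv hu
  have dW : Poly (fun a => decide ((f a).1.1 = eW (E a) (f a).1.2.1)) := Poly.decide_eq hv hw
  have hlen : Poly (fun a => (E a).length) := Poly.length hE
  unfold sg
  refine Poly.ite (Poly.decide_and (dS 0) (dT (0, 1, 2)))
    (Poly.ite dU (k0 _ (cp 2)) (Poly.ite dW (k0 _ (Poly.pair hu (Poly.pair ht (Poly.const 2))))
      (k0 _ (cp 1)))) ?_
  refine Poly.ite (Poly.decide_and (dS 0) (dT (1, 0, 2))) (k0 _ (cp 1)) ?_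
  refine Poly.ite (Poly.decide_and (dS 1) (dT (0, 1, 2))) (k0 _ (cp 0)) ?_
  refine Poly.ite (Poly.decide_and (dS 1) (dT (1, 0, 2)))
    (k0 _ (Poly.pair hv (Poly.pair (poly_nxt hlen ht) (Poly.const 0)))) ?_
  refine Poly.ite (Poly.decide_and (dS 2) (Poly.decide_and dU (dT (0, 1, 2)))) (k0 _ (cp 1)) ?_
  refine Poly.ite (Poly.decide_and (dS 2) (Poly.decide_and dU (dT (0, 1, 3))))
    (k0 _ (Poly.pair hw (Poly.pair ht (Poly.const 1)))) hf

theorem poly_rt {f : α → FlagN} (hf : Poly f) : Poly (fun a => rt (f a)) :=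
  Poly.pair (Poly.fst hf) (Poly.pair (Poly.fst (Poly.snd (Poly.snd hf)))
    (Poly.pair (Poly.snd (Poly.snd (Poly.snd hf))) (Poly.fst (Poly.snd hf))))

theorem poly_pn {E : α → List (ℕ × ℕ)} {f : α → FlagN} (hE : Poly E) (hf : Poly f) :
    Poly (fun a => pn (E a) (f a)) := by
  have h := poly_sg hE hf
  exact Poly.pair (Poly.fst h) (Poly.pair (Poly.fst (Poly.snd h))
    (Poly.fst (Poly.snd (Poly.snd h))))

theorem poly_cps {E : α → List (ℕ × ℕ)} (hE : Poly E) : Poly (fun a => cps (E a)) := by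
  have hl : UPoly (fun a => (E a).length) := UPoly.length hE
  exact poly_product (UPoly.range (UPoly.mul (UPoly.const 2) hl))
    (poly_product (UPoly.range hl) (Poly.const (List.range 3)))

theorem poly_flagsL (k : ℕ) {E : α → List (ℕ × ℕ)} (hE : Poly E) :
    Poly (fun a => flagsL k (E a)) := by
  have hr : Poly (fun _ : α => List.range k) := Poly.const _
  refine Poly.filter (l := fun a => cps (E a) ×ˢ (List.range k ×ˢ (List.range k ×ˢ List.range k)))
    (p := fun _ f => !decide (f.2.1 = f.2.2.1) &&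
      (!decide (f.2.1 = f.2.2.2) && !decide (f.2.2.1 = f.2.2.2)))
    (poly_product (poly_cps hE) (poly_product hr (poly_product hr hr))) ?_
  have ha : Poly (fun x : α × FlagN => x.2.2.1) := Poly.fst (Poly.snd (Poly.snd Poly.id))
  have hb : Poly (fun x : α × FlagN => x.2.2.2.1) :=
    Poly.fst (Poly.snd (Poly.snd (Poly.snd Poly.id)))
  have hc : Poly (fun x : α × FlagN => x.2.2.2.2) :=
    Poly.snd (Poly.snd (Poly.snd (Poly.snd Poly.id)))
  exact Poly.and (Poly.not (Poly.decide_eq ha hb))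
    (Poly.and (Poly.not (Poly.decide_eq ha hc)) (Poly.not (Poly.decide_eq hb hc)))

theorem poly_pointsL (k : ℕ) {E : α → List (ℕ × ℕ)} (hE : Poly E) :
    Poly (fun a => pointsL k (E a)) := by
  have hr : Poly (fun _ : α => List.range k) := Poly.const _
  refine Poly.filter (l := fun a => cps (E a) ×ˢ (List.range k ×ˢ List.range k))
    (p := fun _ x => !decide (x.2.1 = x.2.2))
    (poly_product (poly_cps hE) (poly_product hr hr)) ?_
  have ha : Poly (fun x : α × PointN => x.2.2.1) := Poly.fst (Poly.snd (Poly.snd Poly.id))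
  have hb : Poly (fun x : α × PointN => x.2.2.2) := Poly.snd (Poly.snd (Poly.snd Poly.id))
  exact Poly.not (Poly.decide_eq ha hb)

theorem poly_adjN (k : ℕ) {E : α → List (ℕ × ℕ)} {x y : α → PointN} (hE : Poly E) (hx : Poly x)
    (hy : Poly y) : Poly (fun a => adjN k (E a) (x a) (y a)) := by
  refine Poly.any (p := fun a f => decide (pn (E a) f = x a) &&
    (decide (pn (E a) (rt f) = y a) || decide (pn (E a) (rt (rt f)) = y a))) (poly_flagsL k hE) ?_
  have e1 : Poly (fun z : α × FlagN => E z.1) := hE.comp (Poly.fst Poly.id)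
  have e2 : Poly (fun z : α × FlagN => x z.1) := hx.comp (Poly.fst Poly.id)
  have e3 : Poly (fun z : α × FlagN => y z.1) := hy.comp (Poly.fst Poly.id)
  have e4 : Poly (fun z : α × FlagN => z.2) := Poly.snd Poly.id
  exact Poly.and (Poly.decide_eq (poly_pn e1 e4) e2)
    (Poly.or (Poly.decide_eq (poly_pn e1 (poly_rt e4)) e3)
      (Poly.decide_eq (poly_pn e1 (poly_rt (poly_rt e4))) e3))

theorem poly_ptN (k : ℕ) {E : α → List (ℕ × ℕ)} {i : α → ℕ} (hE : Poly E) (hi : Poly i) :
    Poly (fun a => ptN k (E a) (i a)) :=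
  Poly.getD (poly_pointsL k hE) hi (Poly.const ((0, 0, 0), (0, 0)))

end

theorem poly_gr (k : ℕ) : Poly (fun E : List (ℕ × ℕ) =>
    (⟨(pointsL k E).length, gr k E⟩ : FinGraph)) := by
  refine poly_finGraph (b := fun E i j => !(decide (i = j)) &&
    (adjN k E (ptN k E i) (ptN k E j) || adjN k E (ptN k E j) (ptN k E i)))
    (UPoly.length (poly_pointsL k Poly.id)) ?_ ?_
  · have hE : Poly (fun q : (List (ℕ × ℕ) × ℕ) × ℕ => q.1.1) := Poly.fst (Poly.fst Poly.id)
    have hi : Poly (fun q : (List (ℕ × ℕ) × ℕ) × ℕ => q.1.2) := Poly.snd (Poly.fst Poly.id)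
    have hj : Poly (fun q : (List (ℕ × ℕ) × ℕ) × ℕ => q.2) := Poly.snd Poly.id
    exact Poly.and (Poly.not (Poly.decide_eq hi hj))
      (Poly.or (poly_adjN k hE (poly_ptN k hE hi) (poly_ptN k hE hj))
        (poly_adjN k hE (poly_ptN k hE hj) (poly_ptN k hE hi)))
  · intro E i j
    simp only [gr, Bool.and_eq_true, Bool.not_eq_true', decide_eq_false_iff_not, Bool.or_eq_true]
    rw [ne_eq, Fin.ext_iff]

/-- The graph is `d`-regular. -/
def Regular (d : ℕ) (G : FinGraph) : Prop := ∀ v, (G.graph.neighborSet v).ncard = d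

/-- The graph has no induced star with `m` leaves. -/
def NoStar (m : ℕ) (G : FinGraph) : Prop :=
  IsEmpty (completeBipartiteGraph (Fin 1) (Fin m) ↪g G.graph)

/-- The graph has a star colouring with `k` colours. -/
def StarColourable (k : ℕ) (G : FinGraph) : Prop :=
  ∃ f : Fin G.n → Fin k, StarColouring G.graph f

/-- **Star colouring with `p + 2` colours is NP-hard on `K_{1,p+1}`-free `2p`-regular graphs.** -/
theorem hard (p : ℕ) (hp : 3 ≤ p) :
    NPHardOn (fun G : FinGraph => Regular (2 * p) G ∧ NoStar (p + 1) G) (StarColourable (p + 2)) :=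
  npHardOn_of (hardPr_small p hp) (poly_gr (p + 2))
    (fun _ h => ⟨regular (by omega) (okE_of_small h), starFree (by omega) (okE_of_small h)⟩)
    (fun _ h => correct hp (okE_of_small h))

end Pool.Agent.NPC.R542.SR
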