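import Mathlib

/-!
# Rigidity of the copies
-/

set_option autoImplicit false

namespace Pool.Agent.NPC.R542.SR

/-- pairwise different -/
def D3 {I : Type} (a b c : I) : Prop := a ≠ b ∧ a ≠ c ∧ b ≠ c

theorem D3.rot {I : Type} {a b c : I} (h : D3 a b c) : D3 b c a := ⟨h.2.2, h.1.symm, h.2.1.symm⟩

/-- Line-side labels `L` and point-side labels `M` of the flags of a copy, the flags `(o, t, h)` and
`(t, o, h)` being cut. -/
structure Loc {I C : Type} (o t h : I) (L1 L2 L3 M1 M2 M3 : I → I → I → C) : Prop where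
  l23 : ∀ a b c, D3 a b c → L2 a b c ≠ L3 a b c
  l13 : ∀ a b c, D3 a b c → L1 a b c ≠ L3 a b c
  l12 : ∀ a b c, D3 a b c → L1 a b c ≠ L2 a b c
  m12 : ∀ a b c, D3 a b c → M1 a b c ≠ M2 a b c
  m13 : ∀ a b c, D3 a b c → M1 a b c ≠ M3 a b c
  m23 : ∀ a b c, D3 a b c → M2 a b c ≠ M3 a b c
  p1 : ∀ a b c d, D3 a b c → D3 a b d → M1 a b c = M1 a b d
  p2 : ∀ a b c d, D3 a b c → D3 a b d → M2 a b c = M2 a b d
  p3 : ∀ a b c d, D3 a b c → D3 a b d → M3 a b c = M3 a b d → c = d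
  line : ∀ a b c, D3 a b c →
    (L1 b c a = L2 a b c ∧ L2 b c a = L3 a b c ∧ L3 b c a = L1 a b c) ∨
    (L1 b c a = L3 a b c ∧ L2 b c a = L1 a b c ∧ L3 b c a = L2 a b c)
  sgn : ∀ a b c, D3 a b c → (L1 b c a = L2 a b c ↔ L1 c a b = L2 b c a)
  un : ∀ a b c, D3 a b c → ¬ (a = o ∧ b = t ∧ c = h) → ¬ (a = t ∧ b = o ∧ c = h) →
    L1 a b c = M1 a b c ∧ L2 a b c = M2 a b c ∧ L3 a b c = M3 a b c

section
variable {I C : Type} {o t h : I} {L1 L2 L3 M1 M2 M3 : I → I → I → C}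

/-- the sign of a line -/
def pos (L1 L2 : I → I → I → C) (a b c : I) : Prop := L1 b c a = L2 a b c

theorem pos_rot (H : Loc o t h L1 L2 L3 M1 M2 M3) {a b c : I} (d : D3 a b c) :
    pos L1 L2 a b c ↔ pos L1 L2 b c a := H.sgn a b c d

/-- **Four points on a closed walk: opposite lines have the same sign.** -/
theorem step (H : Loc o t h L1 L2 L3 M1 M2 M3) {a b c d : I} (hab : a ≠ b) (hac : a ≠ c)
    (had : a ≠ d) (hbc : b ≠ c) (hbd : b ≠ d) (hcd : c ≠ d)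
    (hu : ¬ (o = a ∧ t = b) ∨ (h ≠ c ∧ h ≠ d)) (hu' : ¬ (t = a ∧ o = b) ∨ (h ≠ c ∧ h ≠ d))
    (hv : ¬ (o = b ∧ t = c) ∨ (h ≠ a ∧ h ≠ d)) (hv' : ¬ (t = b ∧ o = c) ∨ (h ≠ a ∧ h ≠ d))
    (hw : ¬ (o = c ∧ t = d) ∨ (h ≠ a ∧ h ≠ b)) (hw' : ¬ (t = c ∧ o = d) ∨ (h ≠ a ∧ h ≠ b))
    (hx : ¬ (o = d ∧ t = a) ∨ (h ≠ b ∧ h ≠ c)) (hx' : ¬ (t = d ∧ o = a) ∨ (h ≠ b ∧ h ≠ c))
    (hp : pos L1 L2 a b c) : pos L1 L2 c d a := by
  have u1 := H.un b c a ⟨hbc, hab.symm, hac.symm⟩ (by grind) (by grind)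
  have u2 := H.un b c d ⟨hbc, hbd, hcd⟩ (by grind) (by grind)
  have u3 := H.un c d b ⟨hcd, hbc.symm, hbd.symm⟩ (by grind) (by grind)
  have u4 := H.un c d a ⟨hcd, hac.symm, had.symm⟩ (by grind) (by grind)
  have u5 := H.un d a c ⟨had.symm, hcd.symm, hac⟩ (by grind) (by grind)
  have u6 := H.un d a b ⟨had.symm, hbd.symm, hab⟩ (by grind) (by grind)
  have u7 := H.un a b d ⟨hab, had, hbd⟩ (by grind) (by grind)
  have u8 := H.un a b c ⟨hab, hac, hbc⟩ (by grind) (by grind)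
  have q1 := H.p1 b c a d ⟨hbc, hab.symm, hac.symm⟩ ⟨hbc, hbd, hcd⟩
  have q2 := H.p2 b c a d ⟨hbc, hab.symm, hac.symm⟩ ⟨hbc, hbd, hcd⟩
  have q3 : M3 b c a ≠ M3 b c d := fun e => had
    (H.p3 b c a d ⟨hbc, hab.symm, hac.symm⟩ ⟨hbc, hbd, hcd⟩ e)
  have q4 := H.p1 c d b a ⟨hcd, hbc.symm, hbd.symm⟩ ⟨hcd, hac.symm, had.symm⟩
  have q5 := H.p2 c d b a ⟨hcd, hbc.symm, hbd.symm⟩ ⟨hcd, hac.symm, had.symm⟩
  have q6 : M3 c d b ≠ M3 c d a := fun e => hab.symm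
    (H.p3 c d b a ⟨hcd, hbc.symm, hbd.symm⟩ ⟨hcd, hac.symm, had.symm⟩ e)
  have q7 := H.p1 d a c b ⟨had.symm, hcd.symm, hac⟩ ⟨had.symm, hbd.symm, hab⟩
  have q8 := H.p2 d a c b ⟨had.symm, hcd.symm, hac⟩ ⟨had.symm, hbd.symm, hab⟩
  have q9 := H.p1 a b d c ⟨hab, had, hbd⟩ ⟨hab, hac, hbc⟩
  have q10 := H.p2 a b d c ⟨hab, had, hbd⟩ ⟨hab, hac, hbc⟩
  have n1 := H.line a b c ⟨hab, hac, hbc⟩
  have n2 := H.line b c d ⟨hbc, hbd, hcd⟩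
  have n3 := H.line c d a ⟨hcd, hac.symm, had.symm⟩
  have n4 := H.line d a b ⟨had.symm, hbd.symm, hab⟩
  have v1 := H.l23 a b c ⟨hab, hac, hbc⟩
  have v2 := H.l13 a b c ⟨hab, hac, hbc⟩
  have v3 := H.l12 a b c ⟨hab, hac, hbc⟩
  have v4 := H.l12 b c d ⟨hbc, hbd, hcd⟩
  have v5 := H.l13 b c d ⟨hbc, hbd, hcd⟩
  have v6 := H.l23 b c d ⟨hbc, hbd, hcd⟩
  have v7 := H.l12 c d a ⟨hcd, hac.symm, had.symm⟩
  have v8 := H.l13 c d a ⟨hcd, hac.symm, had.symm⟩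
  have v9 := H.l23 c d a ⟨hcd, hac.symm, had.symm⟩
  unfold pos at hp ⊢
  grind

/-- four different elements, not containing all of `o, t, h` -/
def Good (o t h a b c d : I) : Prop :=
  (a ≠ b ∧ a ≠ c ∧ a ≠ d ∧ b ≠ c ∧ b ≠ d ∧ c ≠ d) ∧
  ((o ≠ a ∧ o ≠ b ∧ o ≠ c ∧ o ≠ d) ∨ (t ≠ a ∧ t ≠ b ∧ t ≠ c ∧ t ≠ d) ∨
    (h ≠ a ∧ h ≠ b ∧ h ≠ c ∧ h ≠ d))

theorem step_good (H : Loc o t h L1 L2 L3 M1 M2 M3) {a b c d : I} (g : Good o t h a b c d)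
    (hp : pos L1 L2 a b c) : pos L1 L2 c d a := by
  obtain ⟨⟨h1, h2, h3, h4, h5, h6⟩, g⟩ := g
  refine step H h1 h2 h3 h4 h5 h6 ?_ ?_ ?_ ?_ ?_ ?_ ?_ ?_ hp <;> grind

theorem step_iff (H : Loc o t h L1 L2 L3 M1 M2 M3) {a b c d : I} (g : Good o t h a b c d) :
    pos L1 L2 a b c ↔ pos L1 L2 c d a := by
  refine ⟨step_good H g, step_good H ?_⟩
  unfold Good at g ⊢
  grind

/-- **All faces of a coherently oriented tetrahedron have the same sign.** -/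
theorem tet (H : Loc o t h L1 L2 L3 M1 M2 M3) {a b c d : I} (g : Good o t h a b c d) :
    (pos L1 L2 a b c ↔ pos L1 L2 a c d) ∧ (pos L1 L2 a b c ↔ pos L1 L2 a d b) ∧
      (pos L1 L2 a b c ↔ pos L1 L2 b d c) := by
  obtain ⟨⟨h1, h2, h3, h4, h5, h6⟩, g'⟩ := id g
  have r : ∀ {x y z : I}, x ≠ y → x ≠ z → y ≠ z → (pos L1 L2 x y z ↔ pos L1 L2 y z x) :=
    fun a b c => pos_rot H ⟨a, b, c⟩
  refine ⟨?_, ?_, ?_⟩
  · rw [step_iff H g, r (by grind) (by grind) (by grind), r (by grind) (by grind) (by grind)]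
  · rw [r h1 h2 h4, step_iff H (a := b) (b := c) (c := a) (d := d) (by unfold Good; grind)]
  · rw [r h1 h2 h4, r h4 h1.symm h2.symm,
      step_iff H (a := c) (b := a) (c := b) (d := d) (by unfold Good; grind)]

/-- **The lines of the elements `o, t, h, x, y`, except two.** -/
theorem five (H : Loc o t h L1 L2 L3 M1 M2 M3) (hot : o ≠ t) (hoh : o ≠ h) (hth : t ≠ h) {x y : I}
    (hxo : x ≠ o) (hxt : x ≠ t) (hxh : x ≠ h) (hyo : y ≠ o) (hyt : y ≠ t) (hyh : y ≠ h)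
    (hxy : x ≠ y) :
    (pos L1 L2 o y t ↔ pos L1 L2 o x y) ∧ (pos L1 L2 o t x ↔ pos L1 L2 o x y) ∧
    (pos L1 L2 x t y ↔ pos L1 L2 o x y) ∧ (pos L1 L2 o y h ↔ pos L1 L2 o x y) ∧
    (pos L1 L2 o h x ↔ pos L1 L2 o x y) ∧ (pos L1 L2 x h y ↔ pos L1 L2 o x y) ∧
    (pos L1 L2 t x y ↔ pos L1 L2 o x y) ∧ (pos L1 L2 t y h ↔ pos L1 L2 o x y) ∧
    (pos L1 L2 t h x ↔ pos L1 L2 o x y) ∧ (pos L1 L2 t x h ↔ pos L1 L2 o x y) ∧
    (pos L1 L2 t h y ↔ pos L1 L2 o x y) ∧ (pos L1 L2 y h x ↔ pos L1 L2 o x y) ∧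
    (pos L1 L2 o y x ↔ pos L1 L2 o x y) ∧ (pos L1 L2 o x h ↔ pos L1 L2 o x y) ∧
    (pos L1 L2 o h y ↔ pos L1 L2 o x y) ∧ (pos L1 L2 o x t ↔ pos L1 L2 o x y) ∧
    (pos L1 L2 o t y ↔ pos L1 L2 o x y) := by
  have t1 := tet H (a := o) (b := x) (c := y) (d := t) (by unfold Good; grind)
  have t2 := tet H (a := o) (b := x) (c := y) (d := h) (by unfold Good; grind)
  have t3 := tet H (a := t) (b := x) (c := y) (d := h) (by unfold Good; grind)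
  have t4 := tet H (a := t) (b := y) (c := x) (d := h) (by unfold Good; grind)
  have t5 := tet H (a := o) (b := y) (c := x) (d := h) (by unfold Good; grind)
  have t6 := tet H (a := o) (b := y) (c := x) (d := t) (by unfold Good; grind)
  have r1 : pos L1 L2 t y x ↔ pos L1 L2 x t y := by
    rw [pos_rot H (a := t) (b := y) (c := x) ⟨hyt.symm, hxt.symm, hxy.symm⟩,
      pos_rot H (a := y) (b := x) (c := t) ⟨hxy.symm, hyt, hxt⟩]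
  obtain ⟨t11, t12, t13⟩ := t1
  obtain ⟨t21, t22, t23⟩ := t2
  obtain ⟨t31, t32, t33⟩ := t3
  obtain ⟨t41, t42, t43⟩ := t4
  obtain ⟨t51, t52, t53⟩ := t5
  obtain ⟨t61, t62, _⟩ := t6
  have a1 : pos L1 L2 t x y ↔ pos L1 L2 o x y := t33.trans t23.symm
  have a2 : pos L1 L2 t y x ↔ pos L1 L2 o x y := r1.trans t13.symm
  have a3 : pos L1 L2 o y x ↔ pos L1 L2 o x y := t53.trans (t43.symm.trans a2)
  exact ⟨t11.symm, t12.symm, t13.symm, t21.symm, t22.symm, t23.symm, a1, t31.symm.trans a1,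
    t32.symm.trans a1, t41.symm.trans a2, t42.symm.trans a2, t43.symm.trans a2, a3,
    t51.symm.trans a3, t52.symm.trans a3, t61.symm.trans a3, t62.symm.trans a3⟩

/-- **All lines have the same sign.** -/
theorem all_same (H : Loc o t h L1 L2 L3 M1 M2 M3) (hot : o ≠ t) (hoh : o ≠ h) (hth : t ≠ h)
    {x₀ y₀ : I} (hxo : x₀ ≠ o) (hxt : x₀ ≠ t) (hxh : x₀ ≠ h) (hyo : y₀ ≠ o) (hyt : y₀ ≠ t)
    (hyh : y₀ ≠ h) (hxy : x₀ ≠ y₀) (a b c : I) (habc : D3 a b c) :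
    pos L1 L2 a b c ↔ pos L1 L2 o x₀ y₀ := by
  -- lines with two outer elements
  have key : ∀ x y, x ≠ o → x ≠ t → x ≠ h → y ≠ o → y ≠ t → y ≠ h → x ≠ y →
      (pos L1 L2 o x y ↔ pos L1 L2 o x₀ y₀) := by
    intro x y h1 h2 h3 h4 h5 h6 h7
    have hind : ∀ x y y', x ≠ o → x ≠ t → x ≠ h → y ≠ o → y ≠ t → y ≠ h → x ≠ y → y' ≠ o →
        y' ≠ t → y' ≠ h → x ≠ y' → (pos L1 L2 o x y ↔ pos L1 L2 o x y') := by
      intro x y y' h1 h2 h3 h4 h5 h6 h7 h8 h9 h10 h11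
      exact (five H hot hoh hth h1 h2 h3 h4 h5 h6 h7).2.1.symm.trans
        (five H hot hoh hth h1 h2 h3 h8 h9 h10 h11).2.1
    by_cases hx : x = x₀
    · subst hx
      exact hind x y y₀ h1 h2 h3 h4 h5 h6 h7 hyo hyt hyh hxy
    · refine (hind x y x₀ h1 h2 h3 h4 h5 h6 h7 hxo hxt hxh hx).trans ?_
      refine (five H hot hoh hth hxo hxt hxh h1 h2 h3 (Ne.symm hx)).2.2.2.2.2.2.2.2.2.2.2.2.1.trans
        ?_
      exact hind x₀ x y₀ hxo hxt hxh h1 h2 h3 (Ne.symm hx) hyo hyt hyh hxy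
  have r : ∀ {x y z : I}, x ≠ y → x ≠ z → y ≠ z → (pos L1 L2 x y z ↔ pos L1 L2 y z x) :=
    fun a b c => pos_rot H ⟨a, b, c⟩
  have F2 : ∀ x y, x ≠ o → x ≠ t → x ≠ h → y ≠ o → y ≠ t → y ≠ h → x ≠ y →
      (pos L1 L2 o x y ↔ pos L1 L2 o x₀ y₀) ∧ (pos L1 L2 t x y ↔ pos L1 L2 o x₀ y₀) ∧
      (pos L1 L2 h x y ↔ pos L1 L2 o x₀ y₀) := by
    intro x y h1 h2 h3 h4 h5 h6 h7
    have f := five H hot hoh hth h1 h2 h3 h4 h5 h6 h7
    have k := key x y h1 h2 h3 h4 h5 h6 h7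
    refine ⟨k, f.2.2.2.2.2.2.1.trans k, ?_⟩
    rw [r h3.symm h6.symm h7, r h7 h3 h6]
    exact f.2.2.2.2.2.2.2.2.2.2.2.1.trans k
  have F1 : ∀ x, x ≠ o → x ≠ t → x ≠ h →
      (pos L1 L2 o t x ↔ pos L1 L2 o x₀ y₀) ∧ (pos L1 L2 t o x ↔ pos L1 L2 o x₀ y₀) ∧
      (pos L1 L2 o h x ↔ pos L1 L2 o x₀ y₀) ∧ (pos L1 L2 h o x ↔ pos L1 L2 o x₀ y₀) ∧
      (pos L1 L2 t h x ↔ pos L1 L2 o x₀ y₀) ∧ (pos L1 L2 h t x ↔ pos L1 L2 o x₀ y₀) := by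
    intro x h1 h2 h3
    obtain ⟨y, h4, h5, h6, h7⟩ : ∃ y, y ≠ o ∧ y ≠ t ∧ y ≠ h ∧ x ≠ y := by
      by_cases hx : x = x₀
      · exact ⟨y₀, hyo, hyt, hyh, by rw [hx]; exact hxy⟩
      · exact ⟨x₀, hxo, hxt, hxh, hx⟩
    have f := five H hot hoh hth h1 h2 h3 h4 h5 h6 h7
    have k := key x y h1 h2 h3 h4 h5 h6 h7
    refine ⟨f.2.1.trans k, ?_, f.2.2.2.2.1.trans k, ?_, f.2.2.2.2.2.2.2.2.1.trans k, ?_⟩
    · rw [r hot.symm h2.symm h1.symm]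
      exact f.2.2.2.2.2.2.2.2.2.2.2.2.2.2.2.1.trans k
    · rw [r hoh.symm h3.symm h1.symm]
      exact f.2.2.2.2.2.2.2.2.2.2.2.2.2.1.trans k
    · rw [r hth.symm h3.symm h2.symm]
      exact f.2.2.2.2.2.2.2.2.2.1.trans k
  have F0 : (pos L1 L2 o t h ↔ pos L1 L2 o x₀ y₀) ∧ (pos L1 L2 t o h ↔ pos L1 L2 o x₀ y₀) := by
    constructor
    · have e : pos L1 L2 t h o ↔ pos L1 L2 o x₀ t := by
        constructor
        · refine step H hth hot.symm hxt.symm hoh.symm hxh.symm hxo.symm ?_ ?_ ?_ ?_ ?_ ?_ ?_ ?_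
            <;> left <;> rintro ⟨h1, h2⟩
          · exact hot h1
          · exact hoh h2
          · exact hoh h1
          · exact hth h1
          · exact hxt h2.symm
          · exact hot.symm h1
          · exact hxo h1.symm
          · exact hxt h1.symm
        · refine step H hxo.symm hot hoh hxt hxh hth ?_ ?_ ?_ ?_ ?_ ?_ ?_ ?_
            <;> left <;> rintro ⟨h1, h2⟩
          · exact hxt h2.symm
          · exact hot.symm h1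
          · exact hxo h1.symm
          · exact hxt h1.symm
          · exact hot h1
          · exact hoh h2
          · exact hoh h1
          · exact hth h1
      rw [r hot hoh hth, e, ← r hot.symm hxt.symm hxo.symm]
      exact (F1 x₀ hxo hxt hxh).2.1
    · have e : pos L1 L2 o h t ↔ pos L1 L2 t x₀ o := by
        constructor
        · refine step H hoh hot hxo.symm hth.symm hxh.symm hxt.symm ?_ ?_ ?_ ?_ ?_ ?_ ?_ ?_
            <;> left <;> rintro ⟨h1, h2⟩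
          · exact hth h2
          · exact hot.symm h1
          · exact hoh h1
          · exact hth h1
          · exact hot h1
          · exact hxo h2.symm
          · exact hxo h1.symm
          · exact hxt h1.symm
        · refine step H hxt.symm hot.symm hth hxo hxh hoh ?_ ?_ ?_ ?_ ?_ ?_ ?_ ?_
            <;> left <;> rintro ⟨h1, h2⟩
          · exact hot h1
          · exact hxo h2.symm
          · exact hxo h1.symm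
          · exact hxt h1.symm
          · exact hth h2
          · exact hot.symm h1
          · exact hoh h1
          · exact hth h1
      rw [r hot.symm hth hoh, e, ← r hot hxo.symm hxt.symm]
      exact (F1 x₀ hxo hxt hxh).1
  have F3 : ∀ a b c, a ≠ o → a ≠ t → a ≠ h → b ≠ o → b ≠ t → b ≠ h → c ≠ o → c ≠ t → c ≠ h →
      a ≠ b → a ≠ c → b ≠ c → (pos L1 L2 a b c ↔ pos L1 L2 o x₀ y₀) := by
    intro a b c a1 a2 a3 b1 b2 b3 c1 c2 c3 hab hac hbc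
    rw [(tet H (a := a) (b := b) (c := c) (d := o) (by unfold Good; grind)).1,
      ← r a1.symm c1.symm hac]
    exact key a c a1 a2 a3 c1 c2 c3 hac
  have R1 : ∀ a b c, D3 a b c → (pos L1 L2 a b c ↔ pos L1 L2 o x₀ y₀) →
      (pos L1 L2 b c a ↔ pos L1 L2 o x₀ y₀) := by
    intro a b c d e
    rw [← r d.1 d.2.1 d.2.2]
    exact e
  have R2 : ∀ a b c, D3 a b c → (pos L1 L2 a b c ↔ pos L1 L2 o x₀ y₀) →
      (pos L1 L2 c a b ↔ pos L1 L2 o x₀ y₀) := by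
    intro a b c d e
    rw [r d.2.1.symm d.2.2.symm d.1]
    exact e
  obtain ⟨hab, hac, hbc⟩ := habc
  have cs : ∀ z : I, z = o ∨ z = t ∨ z = h ∨ (z ≠ o ∧ z ≠ t ∧ z ≠ h) := by
    intro z
    tauto
  rcases cs a with ha | ha | ha | ⟨a1, a2, a3⟩ <;> rcases cs b with hb | hb | hb | ⟨b1, b2, b3⟩ <;>
    rcases cs c with hc | hc | hc | ⟨c1, c2, c3⟩
  all_goals try subst ha
  all_goals try subst hb
  all_goals try subst hc
  all_goals first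
    | exact absurd rfl hab
    | exact absurd rfl hac
    | exact absurd rfl hbc
    | exact F3 a b c a1 a2 a3 b1 b2 b3 c1 c2 c3 hab hac hbc
    | exact F0.1
    | exact F0.2
    | exact R1 _ _ _ ⟨hac.symm, hbc.symm, hab⟩ F0.1
    | exact R1 _ _ _ ⟨hac.symm, hbc.symm, hab⟩ F0.2
    | exact R2 _ _ _ ⟨hbc, hab.symm, hac.symm⟩ F0.1
    | exact R2 _ _ _ ⟨hbc, hab.symm, hac.symm⟩ F0.2
    | exact (F1 _ c1 c2 c3).1
    | exact (F1 _ c1 c2 c3).2.1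
    | exact (F1 _ c1 c2 c3).2.2.1
    | exact (F1 _ c1 c2 c3).2.2.2.1
    | exact (F1 _ c1 c2 c3).2.2.2.2.1
    | exact (F1 _ c1 c2 c3).2.2.2.2.2
    | exact R1 _ _ _ ⟨hac.symm, hbc.symm, hab⟩ (F1 _ b1 b2 b3).1
    | exact R1 _ _ _ ⟨hac.symm, hbc.symm, hab⟩ (F1 _ b1 b2 b3).2.1
    | exact R1 _ _ _ ⟨hac.symm, hbc.symm, hab⟩ (F1 _ b1 b2 b3).2.2.1
    | exact R1 _ _ _ ⟨hac.symm, hbc.symm, hab⟩ (F1 _ b1 b2 b3).2.2.2.1
    | exact R1 _ _ _ ⟨hac.symm, hbc.symm, hab⟩ (F1 _ b1 b2 b3).2.2.2.2.1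
    | exact R1 _ _ _ ⟨hac.symm, hbc.symm, hab⟩ (F1 _ b1 b2 b3).2.2.2.2.2
    | exact R2 _ _ _ ⟨hbc, hab.symm, hac.symm⟩ (F1 _ a1 a2 a3).1
    | exact R2 _ _ _ ⟨hbc, hab.symm, hac.symm⟩ (F1 _ a1 a2 a3).2.1
    | exact R2 _ _ _ ⟨hbc, hab.symm, hac.symm⟩ (F1 _ a1 a2 a3).2.2.1
    | exact R2 _ _ _ ⟨hbc, hab.symm, hac.symm⟩ (F1 _ a1 a2 a3).2.2.2.1
    | exact R2 _ _ _ ⟨hbc, hab.symm, hac.symm⟩ (F1 _ a1 a2 a3).2.2.2.2.1
    | exact R2 _ _ _ ⟨hbc, hab.symm, hac.symm⟩ (F1 _ a1 a2 a3).2.2.2.2.2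
    | exact (F2 _ _ b1 b2 b3 c1 c2 c3 hbc).1
    | exact (F2 _ _ b1 b2 b3 c1 c2 c3 hbc).2.1
    | exact (F2 _ _ b1 b2 b3 c1 c2 c3 hbc).2.2
    | exact R2 _ _ _ ⟨hbc, hab.symm, hac.symm⟩ (F2 _ _ c1 c2 c3 a1 a2 a3 hac.symm).1
    | exact R2 _ _ _ ⟨hbc, hab.symm, hac.symm⟩ (F2 _ _ c1 c2 c3 a1 a2 a3 hac.symm).2.1
    | exact R2 _ _ _ ⟨hbc, hab.symm, hac.symm⟩ (F2 _ _ c1 c2 c3 a1 a2 a3 hac.symm).2.2
    | exact R1 _ _ _ ⟨hac.symm, hbc.symm, hab⟩ (F2 _ _ a1 a2 a3 b1 b2 b3 hab).1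
    | exact R1 _ _ _ ⟨hac.symm, hbc.symm, hab⟩ (F2 _ _ a1 a2 a3 b1 b2 b3 hab).2.1
    | exact R1 _ _ _ ⟨hac.symm, hbc.symm, hab⟩ (F2 _ _ a1 a2 a3 b1 b2 b3 hab).2.2

end

end Pool.Agent.NPC.R542.SR
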