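import Pool.Agent.R542.SR.Inst
import Pool.Agent.R542.SR.Flags

/-!
# The instance is a system of flags
-/

set_option autoImplicit false

namespace Pool.Agent.NPC.R542.SR

variable {k : ℕ} {E : List (ℕ × ℕ)}

/-- the copies -/
def cps (E : List (ℕ × ℕ)) : List (ℕ × ℕ × ℕ) :=
  List.range (2 * E.length) ×ˢ (List.range E.length ×ˢ List.range 3)

/-- the list of the flags -/
def flagsL (k : ℕ) (E : List (ℕ × ℕ)) : List FlagN :=
  (cps E ×ˢ (List.range k ×ˢ (List.range k ×ˢ List.range k))).filter fun f =>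
    !decide (f.2.1 = f.2.2.1) && (!decide (f.2.1 = f.2.2.2) && !decide (f.2.2.1 = f.2.2.2))

/-- the list of the points -/
def pointsL (k : ℕ) (E : List (ℕ × ℕ)) : List PointN :=
  (cps E ×ˢ (List.range k ×ˢ List.range k)).filter fun x => !decide (x.2.1 = x.2.2)

theorem mem_flagsL {f : FlagN} : f ∈ flagsL k E ↔ VF k E f := by
  obtain ⟨⟨v, t, s⟩, a, b, c⟩ := f
  simp only [flagsL, cps, List.mem_filter, List.mem_product, List.mem_range, VF,
    Bool.and_eq_true, Bool.not_eq_true', decide_eq_false_iff_not]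
  tauto

theorem mem_pointsL {x : PointN} : x ∈ pointsL k E ↔ VP k E x := by
  obtain ⟨⟨v, t, s⟩, a, b⟩ := x
  simp only [pointsL, cps, List.mem_filter, List.mem_product, List.mem_range, VP,
    Bool.not_eq_true', decide_eq_false_iff_not]
  tauto

theorem pointsL_nodup : (pointsL k E).Nodup := by
  unfold pointsL cps
  exact List.Nodup.filter _ ((List.nodup_range.product (List.nodup_range.product
    List.nodup_range)).product (List.nodup_range.product List.nodup_range))

/-- flags -/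
abbrev FT (k : ℕ) (E : List (ℕ × ℕ)) : Type := {f : FlagN // f ∈ flagsL k E}

/-- points -/
abbrev PT (k : ℕ) (E : List (ℕ × ℕ)) : Type := {x : PointN // x ∈ pointsL k E}

theorem rt_valid {f : FlagN} (h : VF k E f) : VF k E (rt f) := by
  obtain ⟨⟨v, t, s⟩, a, b, c⟩ := f
  obtain ⟨h1, h2, h3, h4, h5, h6, h7, h8, h9⟩ := h
  exact ⟨h1, h2, h3, h5, h6, h4, h9, h7.symm, h8.symm⟩

theorem bs_valid {f : FlagN} (h : VF k E f) : VP k E (bs f) := by
  obtain ⟨⟨v, t, s⟩, a, b, c⟩ := f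
  obtain ⟨h1, h2, h3, h4, h5, h6, h7, h8, h9⟩ := h
  exact ⟨h1, h2, h3, h4, h5, h7⟩

theorem pn_eq {f : FlagN} (h : ¬ Cut E f) : pn E f = bs f := by
  unfold pn
  rw [sg_of_not_cut h]

theorem pn_copy {f : FlagN} (h : ¬ Cut E f) : (pn E f).1 = f.1 := by
  rw [pn_eq h]
  rfl

theorem pn_ne {f : FlagN} (hf : VF k E f) : pn E f ≠ pn E (rt f) := by
  intro h
  have hcopy : (rt f).1 = f.1 := rfl
  by_cases c1 : Cut E f
  · have c2 := (cut_rt c1).1
    have h1 := (cut_copy c1).1
    rw [h, pn_copy c2] at h1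
    exact h1 rfl
  · by_cases c2 : Cut E (rt f)
    · have h1 := (cut_copy c2).1
      rw [← h, pn_copy c1] at h1
      exact h1 rfl
    · rw [pn_eq c1, pn_eq c2] at h
      obtain ⟨⟨v, t, s⟩, a, b, c⟩ := f
      have h7 : a ≠ b := hf.2.2.2.2.2.2.1
      simp only [bs, rt, Prod.mk.injEq] at h
      exact h7 h.2.1

theorem rt3 (f : FlagN) : rt (rt (rt f)) = f := rfl

theorem rt_inj {f g : FlagN} (h : rt f = rt g) : f = g := by
  rw [← rt3 f, ← rt3 g, h]

/-- equal points of flags of the same copy -/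
theorem same_copy (hE : OKE E) {f g : FlagN} (hf : VF k E f) (hg : VF k E g) (h : f.1 = g.1)
    (hp : pn E f = pn E g) : f = g ∨ (¬ Cut E f ∧ ¬ Cut E g ∧ bs f = bs g) := by
  by_cases c1 : Cut E f
  · by_cases c2 : Cut E g
    · exact Or.inl (cut_pt hE hf hg c1 c2 h hp)
    · exfalso
      have h1 := (cut_copy c1).1
      rw [hp, pn_copy c2, h] at h1
      exact h1 rfl
  · by_cases c2 : Cut E g
    · exfalso
      have h1 := (cut_copy c2).1
      rw [← hp, pn_copy c1, h] at h1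
      exact h1 rfl
    · right
      rw [pn_eq c1, pn_eq c2] at hp
      exact ⟨c1, c2, hp⟩

/-- equal points of flags of different copies -/
theorem diff_copy {f g : FlagN} (h : f.1 ≠ g.1) (hp : pn E f = pn E g) :
    (Cut E f ∧ Cut E g) ∨ (Cut E f ∧ ¬ Cut E g ∧ (bs g).2.1 < 2 ∧ (bs g).2.2 < 2) ∨
      (¬ Cut E f ∧ Cut E g ∧ (bs f).2.1 < 2 ∧ (bs f).2.2 < 2) := by
  by_cases c1 : Cut E f
  · by_cases c2 : Cut E g
    · exact Or.inl ⟨c1, c2⟩
    · right; left
      have h1 := (cut_copy c1).2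
      rw [hp, pn_eq c2] at h1
      exact ⟨c1, c2, h1⟩
  · by_cases c2 : Cut E g
    · right; right
      have h1 := (cut_copy c2).2
      rw [← hp, pn_eq c1] at h1
      exact ⟨c1, c2, h1⟩
    · exfalso
      apply h
      rw [← pn_copy c1, ← pn_copy c2, hp]

/-- **Two lines with two common points are equal.** -/
theorem lin_aux (hE : OKE E) {f g f' g' : FlagN} (hf : VF k E f) (hg : VF k E g)
    (hf' : f' = rt f ∨ f' = rt (rt f)) (hg' : g' = rt g ∨ g' = rt (rt g))
    (h1 : pn E f = pn E g) (h2 : pn E f' = pn E g') : f = g := by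
  have vf' : VF k E f' := by
    rcases hf' with rfl | rfl
    · exact rt_valid hf
    · exact rt_valid (rt_valid hf)
  have vg' : VF k E g' := by
    rcases hg' with rfl | rfl
    · exact rt_valid hg
    · exact rt_valid (rt_valid hg)
  have cf' : f'.1 = f.1 := by rcases hf' with rfl | rfl <;> rfl
  have cg' : g'.1 = g.1 := by rcases hg' with rfl | rfl <;> rfl
  -- if one flag of a line is cut, the other is not, and it has an element `≥ 2`
  have kf : Cut E f → ¬ Cut E f' ∧ ¬ ((bs f').2.1 < 2 ∧ (bs f').2.2 < 2) := by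
    intro c
    obtain ⟨k1, k2, k3, k4⟩ := cut_rt c
    rcases hf' with rfl | rfl
    · exact ⟨k1, fun h => by omega⟩
    · exact ⟨k2, fun h => by omega⟩
  have kf' : Cut E f' → ¬ Cut E f ∧ ¬ ((bs f).2.1 < 2 ∧ (bs f).2.2 < 2) := by
    intro c
    obtain ⟨k1, k2, k3, k4⟩ := cut_rt c
    rcases hf' with rfl | rfl
    · rw [rt3] at k2 k4
      exact ⟨k2, fun h => by omega⟩
    · rw [rt3] at k1 k3
      exact ⟨k1, fun h => by omega⟩
  have kg : Cut E g → ¬ Cut E g' ∧ ¬ ((bs g').2.1 < 2 ∧ (bs g').2.2 < 2) := by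
    intro c
    obtain ⟨k1, k2, k3, k4⟩ := cut_rt c
    rcases hg' with rfl | rfl
    · exact ⟨k1, fun h => by omega⟩
    · exact ⟨k2, fun h => by omega⟩
  have kg' : Cut E g' → ¬ Cut E g ∧ ¬ ((bs g).2.1 < 2 ∧ (bs g).2.2 < 2) := by
    intro c
    obtain ⟨k1, k2, k3, k4⟩ := cut_rt c
    rcases hg' with rfl | rfl
    · rw [rt3] at k2 k4
      exact ⟨k2, fun h => by omega⟩
    · rw [rt3] at k1 k3
      exact ⟨k1, fun h => by omega⟩
  by_cases hc : f.1 = g.1
  · rcases same_copy hE hf hg hc h1 with e | ⟨n1, n2, e⟩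
    · exact e
    · rcases same_copy hE vf' vg' (cf'.trans (hc.trans cg'.symm)) h2 with e' | ⟨n3, n4, e'⟩
      · -- the same flag
        have hne1 := pn_ne hf
        have hne2 := pn_ne hg
        rcases hf' with rfl | rfl <;> rcases hg' with rfl | rfl
        · exact rt_inj e'
        · exfalso
          have e2 : f = rt g := rt_inj e'
          exact hne2 (h1.symm.trans (by rw [e2]))
        · exfalso
          have e2 : rt f = g := rt_inj e'
          exact hne1 (h1.trans (by rw [e2]))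
        · exact rt_inj (rt_inj e')
      · obtain ⟨⟨v, t, s⟩, a, b, c⟩ := f
        obtain ⟨⟨v', t', s'⟩, a', b', c'⟩ := g
        have q1 := hf.2.2.2.2.2.2
        have q2 := hg.2.2.2.2.2.2
        simp only at q1 q2 hc
        rcases hf' with rfl | rfl <;> rcases hg' with rfl | rfl <;>
          simp only [bs, rt, Prod.mk.injEq] at e e' hc ⊢ <;> omega
  · exfalso
    have hc' : f'.1 ≠ g'.1 := by
      rw [cf', cg']
      exact hc
    rcases diff_copy hc h1 with ⟨a1, a2⟩ | ⟨a1, a2, a3⟩ | ⟨a1, a2, a3⟩ <;>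
      rcases diff_copy hc' h2 with ⟨b1, b2⟩ | ⟨b1, b2, b3⟩ | ⟨b1, b2, b3⟩
    · exact (kf a1).1 b1
    · exact (kf a1).1 b1
    · exact (kg a2).1 b2
    · exact (kf a1).1 b1
    · exact (kf a1).1 b1
    · exact (kg' b2).2 a3
    · exact (kg a2).1 b2
    · exact (kf' b1).2 a3
    · exact (kg a2).1 b2

/-- **The system of flags of the instance.** -/
def sys (k : ℕ) (hk : 5 ≤ k) (E : List (ℕ × ℕ)) (hE : OKE E) : Flags (FT k E) (PT k E) where
  rot f := ⟨rt f.1, mem_flagsL.2 (rt_valid (mem_flagsL.1 f.2))⟩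
  pt f := ⟨pn E f.1, mem_pointsL.2 (bs_valid (sg_valid hk hE (mem_flagsL.1 f.2)))⟩
  rot3 f := rfl
  ne f h := pn_ne (mem_flagsL.1 f.2) (congrArg Subtype.val h)
  lin f g h h' := by
    apply Subtype.ext
    have vf := mem_flagsL.1 f.2
    have vg := mem_flagsL.1 g.2
    have h1 : pn E f.1 = pn E g.1 := congrArg Subtype.val h
    rcases h' with h' | h' | h'
    · exact lin_aux hE vf vg (Or.inl rfl) (Or.inl rfl) h1 (congrArg Subtype.val h')
    · exact lin_aux hE vf vg (Or.inl rfl) (Or.inr rfl) h1 (congrArg Subtype.val h')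
    · exact lin_aux hE vf vg (Or.inr rfl) (Or.inr rfl) h1 (congrArg Subtype.val h')

/-- the permutation of the flags -/
def sgT (hk : 5 ≤ k) (hE : OKE E) (f : FT k E) : FT k E :=
  ⟨sg E f.1, mem_flagsL.2 (sg_valid hk hE (mem_flagsL.1 f.2))⟩

theorem sgT_bij (hk : 5 ≤ k) (hE : OKE E) : Function.Bijective (sgT (k := k) (E := E) hk hE) := by
  rw [Fintype.bijective_iff_injective_and_card]
  refine ⟨?_, rfl⟩
  intro f g h
  exact Subtype.ext (sg_inj hE (mem_flagsL.1 f.2) (mem_flagsL.1 g.2) (congrArg Subtype.val h))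

open Classical in
/-- **Every point is on `k - 2` lines.** -/
theorem fibre {p : ℕ} (hk : 5 ≤ p + 2) (hE : OKE E) (x : PT (p + 2) E) :
    (Finset.univ.filter fun f => (sys (p + 2) hk E hE).pt f = x).card = p := by
  -- first: the flags with base `x`
  have h1 : (Finset.univ.filter fun g : FT (p + 2) E => bs g.1 = x.1).card = p := by
    have hx := mem_pointsL.1 x.2
    have h2 : (((Finset.range (p + 2)).erase x.1.2.1).erase x.1.2.2).card = p := by
      rw [Finset.card_erase_of_mem, Finset.card_erase_of_mem, Finset.card_range]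
      · omega
      · exact Finset.mem_range.2 hx.2.2.2.1
      · exact Finset.mem_erase.2 ⟨hx.2.2.2.2.2.symm, Finset.mem_range.2 hx.2.2.2.2.1⟩
    refine Eq.trans ?_ h2
    apply Finset.card_bij (fun g _ => g.1.2.2.2)
    · rintro ⟨⟨⟨v, t, s⟩, a, b, c⟩, hg⟩ h
      have vg := mem_flagsL.1 hg
      have e := (Finset.mem_filter.1 h).2
      simp only [bs] at e
      rw [← e]
      exact Finset.mem_erase.2 ⟨vg.2.2.2.2.2.2.2.2.symm, Finset.mem_erase.2
        ⟨vg.2.2.2.2.2.2.2.1.symm, Finset.mem_range.2 vg.2.2.2.2.2.1⟩⟩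
    · rintro ⟨⟨⟨v, t, s⟩, a, b, c⟩, hg⟩ h ⟨⟨⟨v', t', s'⟩, a', b', c'⟩, hg'⟩ h' e
      have e1 := (Finset.mem_filter.1 h).2
      have e2 := (Finset.mem_filter.1 h').2
      apply Subtype.ext
      rw [← e2] at e1
      simp only [bs, Prod.mk.injEq] at e1 e ⊢
      exact ⟨⟨e1.1.1, e1.1.2.1, e1.1.2.2⟩, e1.2.1, e1.2.2, e⟩
    · intro c hc
      rw [Finset.mem_erase, Finset.mem_erase, Finset.mem_range] at hc
      have vg : VF (p + 2) E (x.1.1, (x.1.2.1, x.1.2.2, c)) :=
        ⟨hx.1, hx.2.1, hx.2.2.1, hx.2.2.2.1, hx.2.2.2.2.1, hc.2.2, hx.2.2.2.2.2,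
          hc.2.1.symm, hc.1.symm⟩
      exact ⟨⟨(x.1.1, (x.1.2.1, x.1.2.2, c)), mem_flagsL.2 vg⟩,
        Finset.mem_filter.2 ⟨Finset.mem_univ _, rfl⟩, rfl⟩
  refine Eq.trans ?_ h1
  apply Finset.card_bij (fun f _ => sgT hk hE f)
  · intro f hf
    exact Finset.mem_filter.2 ⟨Finset.mem_univ _, congrArg Subtype.val (Finset.mem_filter.1 hf).2⟩
  · intro f _ g _ e
    exact (sgT_bij hk hE).1 e
  · intro g hg
    obtain ⟨f, hf⟩ := (sgT_bij hk hE).2 g
    refine ⟨f, Finset.mem_filter.2 ⟨Finset.mem_univ _, ?_⟩, hf⟩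
    apply Subtype.ext
    have e := (Finset.mem_filter.1 hg).2
    rw [← hf] at e
    exact e

end Pool.Agent.NPC.R542.SR
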